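import Pool.Agent.Lib.MP_8f6629_co.Core

/-! Sequences made of blocks of variable length. -/

namespace Pool.Agent.Lib.MP_8f6629_co.AL

/-- The position where block `q` starts. -/
def st (L : ℕ → ℕ) : ℕ → ℕ
  | 0 => 0
  | q + 1 => st L q + L q

/-- Admissible block lengths. -/
structure Ok (k Q : ℕ) (L : ℕ → ℕ) : Prop where
  k3 : 3 ≤ k
  q1 : 2 * k + 1 ≤ Q
  lo : ∀ q, 4 ≤ L q
  hi : ∀ q, L q ≤ 2 * k
  l1 : ∀ q, q + 1 < k → L q + 1 = 2 * k
  l2 : ∀ q, q < k → 2 * k ≤ L q + 1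
  l3 : ∀ q, Q ≤ q + k → L q + 1 = 2 * k

/-- The blocks whose first entry is large. -/
abbrev Hi (k Q q : ℕ) : Prop := q < k ∨ (k < q ∧ q + k ≤ Q ∧ (Q + k + q) % 2 = 0)

/-- First key. -/
def bd (k Q : ℕ) (L : ℕ → ℕ) (q r : ℕ) : ℕ :=
  if r = 0 then (if Hi k Q q then 2 * k else 0) else if r = 1 then 0
  else if r + 1 = L q then 2 * k else r

/-- Index of the second key. -/
def ix (L : ℕ → ℕ) (q r : ℕ) : ℕ := if r + 1 = L q then q + 1 else q

/-- Third key. -/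
def ti (k Q : ℕ) (L : ℕ → ℕ) (q r : ℕ) : ℕ :=
  if r = 0 then (if Hi k Q q then 0 else 1) else if r + 1 = L q then 1 else 0

/-- The value of entry `r` of block `q`. -/
def val (k Q : ℕ) (L : ℕ → ℕ) (q r : ℕ) : ℕ ×ₗ ℚ ×ₗ ℕ :=
  toLex (bd k Q L q r, toLex (P (ix L q r), ti k Q L q r))

/-- The block that holds position `i`. -/
def blk (L : ℕ → ℕ) (i : ℕ) : ℕ := Nat.findGreatest (fun q => st L q ≤ i) i

/-- The sequence. -/
def V (k Q : ℕ) (L : ℕ → ℕ) (i : ℕ) : ℕ ×ₗ ℚ ×ₗ ℕ :=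
  val k Q L (blk L i) (i - st L (blk L i))

variable {k Q : ℕ} {L : ℕ → ℕ}

theorem bd_hi {q : ℕ} (h : Hi k Q q) : bd k Q L q 0 = 2 * k := by simp only [bd, if_pos h, if_true]

theorem bd_lo {q : ℕ} (h : ¬ Hi k Q q) : bd k Q L q 0 = 0 := by simp only [bd, if_neg h, if_true]

theorem bd_one (q : ℕ) : bd k Q L q 1 = 0 := by simp [bd]

theorem bd_mid {q r : ℕ} (h : 2 ≤ r) (h' : r + 1 ≠ L q) : bd k Q L q r = r := by
  rw [bd, if_neg (by omega), if_neg (by omega), if_neg h']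

theorem bd_top {q r : ℕ} (h : 2 ≤ r) (h' : r + 1 = L q) : bd k Q L q r = 2 * k := by
  rw [bd, if_neg (by omega), if_neg (by omega), if_pos h']

theorem ix_lo {q r : ℕ} (h' : r + 1 ≠ L q) : ix L q r = q := if_neg h'

theorem ix_top {q r : ℕ} (h' : r + 1 = L q) : ix L q r = q + 1 := if_pos h'

theorem ti_hi {q : ℕ} (h : Hi k Q q) : ti k Q L q 0 = 0 := by simp only [ti, if_pos h, if_true]

theorem ti_lo {q : ℕ} (h : ¬ Hi k Q q) : ti k Q L q 0 = 1 := by simp only [ti, if_neg h, if_true]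

theorem ti_mid {q r : ℕ} (h : 1 ≤ r) (h' : r + 1 ≠ L q) : ti k Q L q r = 0 := by
  rw [ti, if_neg (by omega), if_neg h']

theorem ti_top {q r : ℕ} (h : 1 ≤ r) (h' : r + 1 = L q) : ti k Q L q r = 1 := by
  rw [ti, if_neg (by omega), if_pos h']

theorem st_succ (q : ℕ) : st L (q + 1) = st L q + L q := rfl

theorem st_const {a c : ℕ} (j : ℕ) (h : ∀ i < j, L (a + i) = c) :
    st L (a + j) = st L a + j * c := by
  induction j with
  | zero => simp
  | succ j ih =>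
    rw [← add_assoc, st_succ, ih fun i hi => h i (by omega), h j (by omega)]
    ring

theorem Ok.mono (H : Ok k Q L) : StrictMono (st L) :=
  strictMono_nat_of_lt_succ fun q => by have := H.lo q; rw [st_succ]; omega

theorem Ok.blk_eq (H : Ok k Q L) {q r : ℕ} (hr : r < L q) : blk L (st L q + r) = q := by
  refine Nat.findGreatest_eq_iff.2 ⟨(H.mono.le_apply (x := q)).trans (by omega),
    fun _ => by omega, fun n h1 _ h2 => ?_⟩
  have := H.mono.monotone (show q + 1 ≤ n from h1)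
  rw [st_succ] at this
  omega

theorem Ok.V_lt (H : Ok k Q L) {q r q' r' a b : ℕ} (hr : r < L q) (hr' : r' < L q')
    (ha : a = st L q + r) (hb : b = st L q' + r') :
    V k Q L a < V k Q L b ↔ bd k Q L q r < bd k Q L q' r' ∨ (bd k Q L q r = bd k Q L q' r' ∧
      (P (ix L q r) < P (ix L q' r') ∨ (ix L q r = ix L q' r' ∧ ti k Q L q r < ti k Q L q' r'))) := by
  have e : P (ix L q r) = P (ix L q' r') ↔ ix L q r = ix L q' r' :=
    ⟨P_inj _ _, fun h => by rw [h]⟩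
  rw [ha, hb, V, V, H.blk_eq hr, H.blk_eq hr', Nat.add_sub_cancel_left, Nat.add_sub_cancel_left,
    val, val, Prod.Lex.toLex_lt_toLex, Prod.Lex.toLex_lt_toLex, e]

theorem Ok.lt_bd (H : Ok k Q L) {q r q' r' a b : ℕ} (hr : r < L q) (hr' : r' < L q')
    (ha : a = st L q + r) (hb : b = st L q' + r') (hne : bd k Q L q r ≠ bd k Q L q' r') :
    V k Q L a < V k Q L b ↔ bd k Q L q r < bd k Q L q' r' := by
  rw [H.V_lt hr hr' ha hb]
  simp [hne]

theorem Ok.lt_ix (H : Ok k Q L) {q r q' r' a b : ℕ} (hr : r < L q) (hr' : r' < L q')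
    (ha : a = st L q + r) (hb : b = st L q' + r') (he : bd k Q L q r = bd k Q L q' r')
    (hne : ix L q r ≠ ix L q' r' ∨ ti k Q L q r = ti k Q L q' r') :
    V k Q L a < V k Q L b ↔ P (ix L q r) < P (ix L q' r') := by
  rw [H.V_lt hr hr' ha hb]
  rcases hne with h | h <;> simp [he, h]

theorem Ok.lt_ti (H : Ok k Q L) {q r q' r' a b : ℕ} (hr : r < L q) (hr' : r' < L q')
    (ha : a = st L q + r) (hb : b = st L q' + r') (he : bd k Q L q r = bd k Q L q' r')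
    (hi : ix L q r = ix L q' r') : V k Q L a < V k Q L b ↔ ti k Q L q r < ti k Q L q' r' := by
  rw [H.V_lt hr hr' ha hb]
  simp [he, hi]

theorem nxt {q r : ℕ} (hr : r < L q) (H : Ok k Q L) : ∃ q' r', r' < L q' ∧
    st L q + r + 1 = st L q' + r' ∧
      ((q' = q ∧ r' = r + 1) ∨ (q' = q + 1 ∧ r' = 0 ∧ r + 1 = L q)) := by
  by_cases h : r + 1 = L q
  · exact ⟨q + 1, 0, by have := H.lo (q + 1); omega, by rw [st_succ]; omega,
      Or.inr ⟨rfl, rfl, h⟩⟩
  · exact ⟨q, r + 1, by omega, by omega, Or.inl ⟨rfl, rfl⟩⟩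

theorem Ok.dec (H : Ok k Q L) (i : ℕ) : ∃ q r, r < L q ∧ i = st L q + r := by
  induction i with
  | zero => exact ⟨0, 0, by have := H.lo 0; omega, rfl⟩
  | succ i ih =>
    obtain ⟨q, r, hr, rfl⟩ := ih
    obtain ⟨q', r', h1, h2, -⟩ := nxt hr H
    exact ⟨q', r', h1, h2⟩

theorem Ok.inj (H : Ok k Q L) : Function.Injective (V k Q L) := fun a b h => by
  obtain ⟨q, r, hr, ha⟩ := H.dec a
  obtain ⟨q', r', hr', hb⟩ := H.dec b
  rw [ha, hb, V, V, H.blk_eq hr, H.blk_eq hr', Nat.add_sub_cancel_left, Nat.add_sub_cancel_left,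
    val, val, toLex_inj, Prod.mk.injEq, toLex_inj, Prod.mk.injEq] at h
  obtain ⟨h1, h2, h3⟩ := h
  have h4 := P_inj _ _ h2
  have a1 := H.lo q
  have a2 := H.lo q'
  have a3 := H.hi q
  have a4 := H.hi q'
  have hq : q = q' := by
    unfold bd at h1
    unfold ix at h4
    unfold ti at h3
    split_ifs at h1 h3 h4 <;> omega
  subst hq
  have hrr : r = r' := by
    unfold bd at h1
    unfold ix at h4
    unfold ti at h3
    split_ifs at h1 h3 h4 <;> omega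
  rw [ha, hb, hrr]

theorem Ok.up (H : Ok k Q L) {q r a : ℕ} (hr : r < L q) (ha : a = st L q + r) :
    V k Q L a < V k Q L (a + 1) ↔ r ≠ 0 ∧ r + 1 ≠ L q := by
  obtain ⟨q', r', h1, h2, h3⟩ := nxt hr H
  have a1 := H.lo q
  have a2 := H.lo q'
  have a3 := H.hi q
  have hb : a + 1 = st L q' + r' := by omega
  by_cases hne : bd k Q L q r = bd k Q L q' r'
  · have hi : ix L q r = ix L q' r' := by
      unfold bd at hne
      unfold ix
      rcases h3 with ⟨rfl, rfl⟩ | ⟨rfl, rfl, h3⟩ <;> split_ifs at hne ⊢ <;> omega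
    rw [H.lt_ti hr h1 ha hb hne hi]
    unfold bd at hne
    unfold ti
    rcases h3 with ⟨rfl, rfl⟩ | ⟨rfl, rfl, h3⟩ <;> split_ifs at hne ⊢ <;> omega
  · rw [H.lt_bd hr h1 ha hb hne]
    unfold bd at hne ⊢
    rcases h3 with ⟨rfl, rfl⟩ | ⟨rfl, rfl, h3⟩ <;> split_ifs at hne ⊢ <;>
      first | omega | contradiction

/-- Positions where a block starts. -/
def IsT (L : ℕ → ℕ) (i : ℕ) : Prop := ∃ q, i = st L q

theorem Ok.isT (H : Ok k Q L) {q r a : ℕ} (hr : r < L q) (ha : a = st L q + r) :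
    IsT L a ↔ r = 0 := by
  refine ⟨fun ⟨u, hu⟩ => ?_, fun h => ⟨q, by omega⟩⟩
  have h1 := H.blk_eq hr
  have h2 := H.blk_eq (q := u) (r := 0) (by have := H.lo u; omega)
  rw [add_zero, ← hu, ha, h1] at h2
  subst h2
  omega

theorem Ok.marks (H : Ok k Q L) (i : ℕ) :
    (IsT L i ↔ ¬ V k Q L i < V k Q L (i + 1) ∧ V k Q L (i + 1) < V k Q L (i + 1 + 1)) ∧
    (IsT L (i + 1) ↔ ¬ V k Q L i < V k Q L (i + 1) ∧ ¬ V k Q L (i + 1) < V k Q L (i + 1 + 1)) ∧
    (IsT L (i + 1 + 1) ↔ V k Q L i < V k Q L (i + 1) ∧ ¬ V k Q L (i + 1) < V k Q L (i + 1 + 1)) := by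
  obtain ⟨q, r, hr, ha⟩ := H.dec i
  obtain ⟨q', r', h1, h2, h3⟩ := nxt hr H
  obtain ⟨q'', r'', h4, h5, h6⟩ := nxt h1 H
  have hb : i + 1 = st L q' + r' := by omega
  have hc : i + 1 + 1 = st L q'' + r'' := by omega
  have a1 := H.lo q
  have a2 := H.lo q'
  rw [H.isT hr ha, H.isT h1 hb, H.isT h4 hc, H.up hr ha, H.up h1 hb]
  rcases h3 with ⟨rfl, rfl⟩ | ⟨rfl, rfl, h3⟩ <;> rcases h6 with ⟨rfl, rfl⟩ | ⟨rfl, rfl, h6⟩ <;>
    omega

/-- A shift that preserves the block starts shifts their indices by a constant. -/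
theorem Ok.shift (H : Ok k Q L) {a b l q0 q1 : ℕ}
    (hT : ∀ x, a ≤ x → x < b → (IsT L x ↔ IsT L (x + l)))
    (h0 : ∀ q, a ≤ st L q ↔ q0 ≤ q) (h1 : ∀ q, a + l ≤ st L q ↔ q1 ≤ q) (j : ℕ) :
    st L (q0 + j) < b → st L (q1 + j) = st L (q0 + j) + l := by
  induction j with
  | zero =>
    intro hb
    simp only [add_zero] at hb ⊢
    have a0 := (h0 q0).2 le_rfl
    have a1 := (h1 q1).2 le_rfl
    obtain ⟨u, hu⟩ := (hT _ a0 hb).1 ⟨q0, rfl⟩
    have a2 := H.mono.monotone ((h1 u).1 (by omega))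
    obtain ⟨v, hv⟩ := (hT (st L q1 - l) (by omega) (by omega)).2 ⟨q1, by omega⟩
    have a3 := H.mono.monotone ((h0 v).1 (by omega))
    omega
  | succ j ih =>
    intro hb
    have b0 : st L (q0 + j) < st L (q0 + (j + 1)) := H.mono (by omega)
    have b1 : st L (q1 + j) < st L (q1 + (j + 1)) := H.mono (by omega)
    have a0 := (h0 (q0 + j)).2 (by omega)
    have e := ih (by omega)
    obtain ⟨u, hu⟩ := (hT _ (by omega) hb).1 ⟨_, rfl⟩
    have a1 : q1 + j < u := H.mono.lt_iff_lt.1 (by omega)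
    have a2 := H.mono.monotone (show q1 + (j + 1) ≤ u from a1)
    obtain ⟨v, hv⟩ := (hT (st L (q1 + (j + 1)) - l) (by omega) (by omega)).2
      ⟨q1 + (j + 1), by omega⟩
    have a3 : q0 + j < v := H.mono.lt_iff_lt.1 (by omega)
    have a4 := H.mono.monotone (show q0 + (j + 1) ≤ v from a3)
    omega

theorem Ok.first (H : Ok k Q L) (a : ℕ) : ∃ q0, (∀ q, a ≤ st L q ↔ q0 ≤ q) ∧
    st L q0 < a + 2 * k := by
  have ex : ∃ q, a ≤ st L q := ⟨a, H.mono.le_apply⟩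
  refine ⟨Nat.find ex, fun q => ⟨fun h => Nat.find_le h, fun h =>
    (Nat.find_spec ex).trans (H.mono.monotone h)⟩, ?_⟩
  have := H.k3
  rcases h : Nat.find ex with _ | q
  · simp only [st]; omega
  · have h1 := Nat.find_min ex (m := q) (by omega)
    have h2 := H.hi q
    rw [st_succ]
    omega

end Pool.Agent.Lib.MP_8f6629_co.AL
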