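import Pool.Agent.Lib.MP_8f6629_co.AL1

/-! The block sequence has no power. -/

namespace Pool.Agent.Lib.MP_8f6629_co.AL

variable {k Q : ℕ} {L : ℕ → ℕ} {s l : ℕ}

theorem Ok.free2 (H : Ok k Q L) : ¬ Pw k (V k Q L) s 2 := fun h => by
  have k3 := H.k3
  obtain ⟨q, r, hr, hs⟩ := H.dec s
  have key : ∀ t < k, ∀ q' r', r' < L q' → s + t * 2 = st L q' + r' →
      ((r ≠ 0 ∧ r + 1 ≠ L q) ↔ (r' ≠ 0 ∧ r' + 1 ≠ L q')) := fun t ht q' r' hr' e => by
    have h1 := h 0 (by omega) t ht 0 (by omega) 1 (by omega)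
    simp only [zero_mul, add_zero] at h1
    rw [H.up hr hs, H.up hr' e] at h1
    exact h1
  have a1 := H.lo q
  have a2 := H.lo (q + 1)
  have a3 := H.hi q
  have a4 : st L (q + 1) = st L q + L q := rfl
  by_cases h0 : r = 0
  · have := key 1 (by omega) q 2 (by omega) (by omega)
    omega
  by_cases h1 : r + 1 = L q
  · have := key 1 (by omega) (q + 1) 1 (by omega) (by omega)
    omega
  by_cases h2 : (L q - r) % 2 = 0
  · have := key ((L q - r) / 2) (by omega) (q + 1) 0 (by omega) (by omega)
    omega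
  · have := key ((L q - r) / 2) (by omega) q (L q - 1) (by omega) (by omega)
    omega

theorem Ok.perT (H : Ok k Q L) (hl : 3 ≤ l) (h : Pw k (V k Q L) s l) {r r' i : ℕ} (hr : r < k)
    (hr' : r' < k) (hi : i < l) : IsT L (s + r * l + i) ↔ IsT L (s + r' * l + i) := by
  have hup : ∀ j, j + 1 < l → (V k Q L (s + r * l + j) < V k Q L (s + r * l + j + 1) ↔
      V k Q L (s + r' * l + j) < V k Q L (s + r' * l + j + 1)) := fun j hj =>
    h r hr r' hr' j (by omega) (j + 1) hj
  by_cases h0 : i = 0
  · subst h0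
    rw [(H.marks _).1, (H.marks _).1, hup 0 (by omega)]
    exact and_congr Iff.rfl (hup 1 (by omega))
  by_cases h1 : i + 1 = l
  · obtain ⟨j, rfl⟩ : ∃ j, i = j + 1 + 1 := ⟨i - 2, by omega⟩
    simp only [← add_assoc]
    rw [(H.marks _).2.2, (H.marks _).2.2, hup j (by omega)]
    exact and_congr Iff.rfl (not_congr (hup (j + 1) (by omega)))
  · obtain ⟨j, rfl⟩ : ∃ j, i = j + 1 := ⟨i - 1, by omega⟩
    simp only [← add_assoc]
    rw [(H.marks _).2.1, (H.marks _).2.1, hup j (by omega)]
    exact and_congr Iff.rfl (not_congr (hup (j + 1) (by omega)))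

theorem Ok.grid (H : Ok k Q L) (hl : 3 ≤ l) (h : Pw k (V k Q L) s l) :
    ∃ (q0 m : ℕ) (o : ℕ → ℕ), 1 ≤ m ∧ (∀ j < m, o j < l) ∧
      ∀ r < k, ∀ j < m, st L (q0 + r * m + j) = s + r * l + o j := by
  have k3 := H.k3
  obtain ⟨c, hc⟩ : ∃ c, k = c + 1 := ⟨k - 1, by omega⟩
  have dm : ∀ x t, s ≤ x → x < s + t * l → ∃ r i, r < t ∧ i < l ∧ x = s + r * l + i :=
    fun x t h1 h2 => by
      have e := Nat.div_add_mod' (x - s) l
      exact ⟨(x - s) / l, (x - s) % l, Nat.div_lt_of_lt_mul (by rw [mul_comm]; omega),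
        Nat.mod_lt _ (by omega), by omega⟩
  have hT : ∀ x, s ≤ x → x < s + c * l → (IsT L x ↔ IsT L (x + l)) := fun x h1 h2 => by
    obtain ⟨r, i, hr, hi, rfl⟩ := dm x c h1 h2
    have e : s + r * l + i + l = s + (r + 1) * l + i := by ring
    rw [e]
    exact H.perT hl h (by omega) (by omega) hi
  obtain ⟨q0, h0, h0'⟩ := H.first s
  obtain ⟨q1, h1, -⟩ := H.first (s + l)
  have b0 : st L q0 < s + l := by
    have hk : 2 * k ≤ k * l := by nlinarith
    obtain ⟨r, i, hr, hi, e⟩ := dm (st L q0) k ((h0 q0).2 le_rfl) (by omega)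
    obtain ⟨u, hu⟩ := (H.perT hl h hr (show 0 < k by omega) hi).1 ⟨q0, e.symm⟩
    have := H.mono.monotone ((h0 u).1 (by omega))
    omega
  have b1 : q0 < q1 := by
    by_contra hq
    have := (h1 q0).2 (by omega)
    omega
  obtain ⟨m, rfl⟩ : ∃ m, q1 = q0 + m := ⟨q1 - q0, by omega⟩
  have b2 : ∀ j < m, s ≤ st L (q0 + j) ∧ st L (q0 + j) < s + l := fun j hj =>
    ⟨(h0 _).2 (by omega), by
      by_contra hq
      have := (h1 (q0 + j)).1 (by omega)
      omega⟩
  refine ⟨q0, m, fun j => st L (q0 + j) - s, by omega,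
    fun j hj => by have := b2 j hj; dsimp only; omega, fun r => ?_⟩
  induction r with
  | zero => intro _ j hj; have := b2 j hj; simp only [zero_mul, add_zero]; omega
  | succ r ih =>
    intro hr j hj
    have e := ih (by omega) j hj
    dsimp only at e ⊢
    have b3 := b2 j hj
    have b4 : (r + 1) * l ≤ c * l := Nat.mul_le_mul_right _ (by omega)
    have b5 : (r + 1) * l = r * l + l := by ring
    have e2 := H.shift hT h0 h1 (r * m + j) (by rw [← add_assoc]; omega)
    have e3 : q0 + (r + 1) * m + j = q0 + m + (r * m + j) := by ring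
    rw [e3, e2, ← add_assoc]
    omega

theorem Ok.many (H : Ok k Q L) (h : Pw k (V k Q L) s l) {q0 m : ℕ} {o : ℕ → ℕ} (hm : 2 ≤ m)
    (ho : ∀ j < m, o j < l) (hg : ∀ r < k, ∀ j < m, st L (q0 + r * m + j) = s + r * l + o j) :
    False := by
  have k3 := H.k3
  refine P_cubefree m hm q0 (Pw_mono H.k3 fun r hr r' hr' i hi j hj => ?_)
  by_cases hc : ∀ j < m, o j + 1 < l
  · have key : ∀ t < k, (V k Q L (s + t * l + (o i + 1)) < V k Q L (s + t * l + (o j + 1)) ↔
        P (q0 + t * m + i) < P (q0 + t * m + j)) := fun t ht => by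
      have a1 := H.lo (q0 + t * m + i)
      have a2 := H.lo (q0 + t * m + j)
      rw [H.lt_ix (q := q0 + t * m + i) (r := 1) (q' := q0 + t * m + j) (r' := 1) (by omega)
        (by omega) (by rw [hg t ht i hi]; ring) (by rw [hg t ht j hj]; ring)
        (by rw [bd_one, bd_one]) (Or.inr (by rw [ti_mid le_rfl (by omega), ti_mid le_rfl (by omega)])),
        ix_lo (by omega), ix_lo (by omega)]
    rw [← key r hr, ← key r' hr']
    exact h r hr r' hr' _ (hc i hi) _ (hc j hj)
  · push Not at hc
    obtain ⟨j0, hj0, hc⟩ := hc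
    have pos : ∀ j < m, 1 ≤ o j := fun j hj => by
      by_contra h0
      have e1 := hg 0 (by omega) j0 hj0
      have e2 := hg 1 (by omega) j hj
      have e3 := H.mono.monotone (show q0 + 0 * m + j0 + 1 ≤ q0 + 1 * m + j by omega)
      have e4 := H.lo (q0 + 0 * m + j0)
      have e5 := ho j0 hj0
      rw [st_succ] at e3
      omega
    have top : ∀ t < k, ∀ j < m, ∃ u, q0 + t * m + j = u + 1 ∧
        s + t * l + (o j - 1) = st L u + (L u - 1) := fun t ht j hj => by
      have e1 := hg t ht j hj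
      have e2 := pos j hj
      rcases e : q0 + t * m + j with _ | u
      · rw [e] at e1; simp only [st] at e1; omega
      · have e3 := H.lo u
        rw [e, st_succ] at e1
        exact ⟨u, rfl, by omega⟩
    have key : ∀ t < k, (V k Q L (s + t * l + (o i - 1)) < V k Q L (s + t * l + (o j - 1)) ↔
        P (q0 + t * m + i) < P (q0 + t * m + j)) := fun t ht => by
      obtain ⟨u, e1, e2⟩ := top t ht i hi
      obtain ⟨v, e3, e4⟩ := top t ht j hj
      have a1 := H.lo u
      have a2 := H.lo v
      rw [H.lt_ix (by omega) (by omega) e2 e4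
        (by rw [bd_top (by omega) (by omega), bd_top (by omega) (by omega)])
        (Or.inr (by rw [ti_top (by omega) (by omega), ti_top (by omega) (by omega)])),
        ix_top (by omega), ix_top (by omega), e1, e3]
    rw [← key r hr, ← key r' hr']
    exact h r hr r' hr' _ (by have := ho i hi; omega) _ (by have := ho j hj; omega)

theorem Ok.one (H : Ok k Q L) (h : Pw k (V k Q L) s l) (hn : s + k * l ≤ st L Q + 1)
    {q0 o : ℕ} (ho : o < l) (hg : ∀ r < k, st L (q0 + r) = s + r * l + o) : False := by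
  have k3 := H.k3
  have kq := H.q1
  have hL : ∀ r, r + 1 < k → L (q0 + r) = l := fun r hr => by
    have e1 := hg r (by omega)
    have e2 := hg (r + 1) hr
    rw [← add_assoc, st_succ, add_mul] at e2
    omega
  have l4 : 4 ≤ l := by have := hL 0 (by omega); have := H.lo (q0 + 0); omega
  have mid : ∃ i < l, ∀ r < k, ∃ q t, 2 ≤ t ∧ t + 1 < L q ∧ s + r * l + i = st L q + t := by
    by_cases hc : o + 2 < l
    · exact ⟨o + 2, hc, fun r hr => ⟨q0 + r, 2, le_rfl, by have := H.lo (q0 + r); omega,
        by rw [hg r hr]; ring⟩⟩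
    · refine ⟨o - 2, by omega, fun r hr => ?_⟩
      have e1 := hg r hr
      rcases e : q0 + r with _ | u
      · rw [e] at e1; simp only [st] at e1; omega
      · have e3 := H.lo u
        rw [e, st_succ] at e1
        exact ⟨u, L u - 2, by omega, by omega, by omega⟩
  obtain ⟨i, hi, mid⟩ := mid
  have key : ∀ r < k, (V k Q L (s + r * l + i) < V k Q L (s + r * l + o) ↔ Hi k Q (q0 + r)) :=
    fun r hr => by
      obtain ⟨q, t, t1, t2, e⟩ := mid r hr
      have a1 := H.lo (q0 + r)
      have a2 := H.hi q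
      have b1 : bd k Q L q t = t := bd_mid t1 (by omega)
      by_cases hh : Hi k Q (q0 + r)
      · rw [H.lt_bd (q' := q0 + r) (r' := 0) (by omega) (by omega) e (by rw [hg r hr]; rfl)
          (by rw [b1, bd_hi hh]; omega), b1, bd_hi hh]
        exact iff_of_true (by omega) hh
      · rw [H.lt_bd (q' := q0 + r) (r' := 0) (by omega) (by omega) e (by rw [hg r hr]; rfl)
          (by rw [b1, bd_lo hh]; omega), b1, bd_lo hh]
        exact iff_of_false (by omega) hh
  have same : ∀ r < k, (Hi k Q (q0 + 0) ↔ Hi k Q (q0 + r)) := fun r hr => by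
    rw [← key 0 (by omega), ← key r hr]
    exact h 0 (by omega) r hr i hi o ho
  obtain ⟨c, rfl⟩ : ∃ c, k = c + 1 := ⟨k - 1, by omega⟩
  have ec := hg c (by omega)
  have em : (c + 1) * l = c * l + l := by ring
  have qle : q0 + c ≤ Q := H.mono.le_iff_le.1 (by omega)
  have cases : q0 = 0 ∨ q0 + c = Q := by
    have s1 := same 1 (by omega)
    have s2 := same 2 (by omega)
    by_cases hq : 1 ≤ q0 ∧ q0 ≤ c
    · have s3 := same (c + 1 - q0) (by omega)
      unfold Hi at s3
      omega
    · unfold Hi at s1 s2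
      omega
  rcases cases with rfl | hq
  · have e0 := hg 0 (by omega)
    simp only [st, zero_mul, add_zero] at e0
    obtain rfl : s = 0 := by omega
    obtain rfl : o = 0 := by omega
    have a0 := hL 0 (by omega)
    have a1 := H.l1 0 (by omega)
    have a2 := H.l2 2 (by omega)
    have a3 := H.hi 2
    simp only [add_zero] at a0
    have e2 := hg 2 (by omega)
    simp only [zero_add, add_zero] at e2
    have h1 := h 0 (by omega) 2 (by omega) 0 (by omega) (l - 1) (by omega)
    have hi0 : Hi (c + 1) Q 0 := Or.inl (by omega)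
    have hi2 : Hi (c + 1) Q 2 := Or.inl (by omega)
    rw [H.lt_ix (q := 0) (r := 0) (q' := 0) (r' := l - 1) (by omega) (by omega) (by simp [st])
      (by simp [st]) (by rw [bd_hi hi0, bd_top (by omega) (by omega)])
      (Or.inl (by rw [ix_lo (by omega), ix_top (by omega)]; omega)), ix_lo (by omega),
      ix_top (by omega), P_up] at h1
    by_cases hc : L 2 = l
    · rw [H.lt_ix (q := 2) (r := 0) (q' := 2) (r' := l - 1) (by omega) (by omega) (by omega)
        (by omega) (by rw [bd_hi hi2, bd_top (by omega) (by omega)])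
        (Or.inl (by rw [ix_lo (by omega), ix_top (by omega)]; omega)), ix_lo (by omega),
        ix_top (by omega), P_up] at h1
      omega
    · have b1 : bd (c + 1) Q L 2 (l - 1) = l - 1 := bd_mid (by omega) (by omega)
      rw [H.lt_bd (q := 2) (r := 0) (q' := 2) (r' := l - 1) (by omega) (by omega) (by omega)
        (by omega) (by rw [bd_hi hi2, b1]; omega), bd_hi hi2, b1] at h1
      omega
  · rw [hq] at ec
    obtain ⟨u, rfl⟩ : ∃ u, q0 = u + 1 := ⟨q0 - 1, by omega⟩
    have a0 := hL 0 (by omega)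
    have a1 := H.l3 (u + 1 + 0) (by omega)
    have key2 : ∀ r < c + 1, (V (c + 1) Q L (s + r * l + 0) < V (c + 1) Q L (s + r * l + o) ↔
        (u + r) % 4 < 2) := fun r hr => by
      have e1 := hg r hr
      have a2 := H.l3 (u + r) (by omega)
      have a3 := H.lo (u + r + 1)
      have hl : ¬ Hi (c + 1) Q (u + r + 1) := by unfold Hi; omega
      rw [show u + 1 + r = u + r + 1 by ring] at e1
      have e2 : st L (u + r + 1) = st L (u + r) + L (u + r) := rfl
      rw [H.lt_ix (q := u + r) (r := 1) (q' := u + r + 1) (r' := 0) (by omega) (by omega)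
        (by omega) (by omega) (by rw [bd_one, bd_lo hl])
        (Or.inl (by rw [ix_lo (by omega), ix_lo (by omega)]; omega)), ix_lo (by omega),
        ix_lo (by omega), P_up]
    have h1 := h 0 (by omega) 1 (by omega) 0 (by omega) o ho
    have h2 := h 0 (by omega) 2 (by omega) 0 (by omega) o ho
    rw [key2 0 (by omega), key2 1 (by omega)] at h1
    rw [key2 0 (by omega), key2 2 (by omega)] at h2
    omega

theorem Ok.free (H : Ok k Q L) (hl : 2 ≤ l) (hn : s + k * l ≤ st L Q + 1) :
    ¬ Pw k (V k Q L) s l := fun h => by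
  by_cases h2 : l = 2
  · subst h2
    exact H.free2 h
  obtain ⟨q0, m, o, hm, ho, hg⟩ := H.grid (by omega) h
  by_cases h1 : m = 1
  · subst h1
    exact H.one h hn (ho 0 one_pos) fun r hr => by simpa using hg r hr 0 one_pos
  · exact H.many h (by omega) ho hg

end Pool.Agent.Lib.MP_8f6629_co.AL
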