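import Pool.Agent.Lib.MP_8f6629_co.AL2

/-! Every extension of the block sequence has a power. -/

namespace Pool.Agent.Lib.MP_8f6629_co.AL

theorem pw_rank {k s l : ℕ} {W : ℕ → ℕ} (ρ : ℕ → ℕ)
    (h : ∀ r < k, ∀ i < l, ∀ j < l, ρ i < ρ j → W (s + r * l + i) < W (s + r * l + j))
    (hinj : ∀ i < l, ∀ j < l, ρ i = ρ j → i = j) : Pw k W s l := by
  have key : ∀ r < k, ∀ i < l, ∀ j < l, (W (s + r * l + i) < W (s + r * l + j) ↔ ρ i < ρ j) := by
    intro r hr i hi j hj
    refine ⟨fun h1 => ?_, h r hr i hi j hj⟩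
    rcases lt_trichotomy (ρ i) (ρ j) with h2 | h2 | h2
    · exact h2
    · obtain rfl := hinj i hi j hj h2
      exact absurd h1 (lt_irrefl _)
    · exact absurd (h r hr j hj i hi h2) (not_lt.2 h1.le)
  intro r hr r' hr' i hi j hj
  rw [key r hr i hi j hj, key r' hr' i hi j hj]

theorem pw_two {k s : ℕ} {W : ℕ → ℕ} (h : ∀ r < k, W (s + r * 2) < W (s + r * 2 + 1)) :
    Pw k W s 2 := by
  refine pw_rank (fun i => i) (fun r hr i hi j hj hij => ?_) fun i _ j _ h => h
  obtain rfl : i = 0 := by omega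
  obtain rfl : j = 1 := by omega
  exact h r hr

theorem exists_perm {α : Type} [LinearOrder α] (n : ℕ) (f : ℕ → α) (hf : Function.Injective f) :
    ∃ σ : Equiv.Perm (Fin n), ∀ i j : Fin n, (σ i < σ j ↔ f i < f j) := by
  let g : Fin n → α := fun i => f i
  have hg : Function.Injective g := fun a b h => Fin.ext (hf h)
  have hm : StrictMono (g ∘ Tuple.sort g) :=
    (Tuple.monotone_sort g).strictMono_of_injective (hg.comp (Tuple.sort g).injective)
  refine ⟨(Tuple.sort g).symm, fun i j => ?_⟩
  rw [← hm.lt_iff_lt]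
  simp [g]

variable {k Q : ℕ} {L : ℕ → ℕ}

theorem Ok.right (H : Ok k Q L) (W : ℕ → ℕ) {n : ℕ} (hn : n = st L Q + 1)
    (hW : ∀ i < n, ∀ j < n, (W i < W j ↔ V k Q L i < V k Q L j)) (hne : W n ≠ W (n - 1)) :
    ∃ s l, 2 ≤ l ∧ s + k * l ≤ n + 1 ∧ Pw k W s l := by
  have k3 := H.k3
  have kq := H.q1
  obtain ⟨c, rfl⟩ : ∃ c, k = c + 1 := ⟨k - 1, by omega⟩
  obtain ⟨a, rfl⟩ : ∃ a, Q = a + (c + 1) := ⟨Q - (c + 1), by omega⟩
  obtain ⟨p, hp⟩ : ∃ p, p = 2 * c + 1 := ⟨_, rfl⟩
  have hL : ∀ r, L (a + r) = p := fun r => by have := H.l3 (a + r) (by omega); omega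
  have hs : ∀ r, st L (a + r) = st L a + r * p := fun r => st_const r fun i _ => hL i
  have em : ∀ r, (r + 1) * p = r * p + p := fun r => by ring
  have e1 := hs (c + 1)
  have e2 := em c
  rcases lt_or_gt_of_ne hne with hlt | hlt
  · refine ⟨st L a + 2, p, by omega, by omega, ?_⟩
    have hV : ∀ r < c + 1, ∀ i < p, ∀ j < p, (if i + 1 = p then 0 else if i + 2 = p then 1
        else i + 2) < (if j + 1 = p then 0 else if j + 2 = p then 1 else j + 2) →
        V (c + 1) (a + (c + 1)) L (st L a + 2 + r * p + i) <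
          V (c + 1) (a + (c + 1)) L (st L a + 2 + r * p + j) := fun r hr i hi j hj hij => by
      have a1 := hs r
      have a2 := hs (r + 1)
      have a3 := em r
      have a4 := hL r
      have a5 := hL (r + 1)
      have hl : ¬ Hi (c + 1) (a + (c + 1)) (a + (r + 1)) := by unfold Hi; omega
      by_cases h1 : j + 2 = p
      · have h2 : i + 1 = p := by split_ifs at hij <;> omega
        rw [H.lt_ti (q := a + (r + 1)) (r := 1) (q' := a + (r + 1)) (r' := 0) (by omega) (by omega)
          (by omega) (by omega) (by rw [bd_one, bd_lo hl])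
          (by rw [ix_lo (by omega), ix_lo (by omega)]), ti_mid le_rfl (by omega), ti_lo hl]
        omega
      have h2 : j + 2 < p := by split_ifs at hij <;> omega
      have h3 : j + 2 ≤ bd (c + 1) (a + (c + 1)) L (a + r) (j + 2) := by
        by_cases h : j + 2 + 1 = L (a + r)
        · rw [bd_top (by omega) h]; omega
        · rw [bd_mid (by omega) h]
      obtain ⟨q, t, b1, b2, b3⟩ : ∃ q t, t < L q ∧ st L a + 2 + r * p + i = st L q + t ∧
          bd (c + 1) (a + (c + 1)) L q t < j + 2 := by
        by_cases h4 : i + 1 = p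
        · exact ⟨a + (r + 1), 1, by omega, by omega, by rw [bd_one]; omega⟩
        by_cases h5 : i + 2 = p
        · exact ⟨a + (r + 1), 0, by omega, by omega, by rw [bd_lo hl]; omega⟩
        have h6 : i < j := by split_ifs at hij <;> omega
        exact ⟨a + r, i + 2, by omega, by omega, by rw [bd_mid (by omega) (by omega)]; omega⟩
      rw [H.lt_bd (q' := a + r) (r' := j + 2) b1 (by omega) b2 (by omega) (by omega)]
      omega
    refine pw_rank (fun i => if i + 1 = p then 0 else if i + 2 = p then 1 else i + 2)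
      (fun r hr i hi j hj hij => ?_) fun i hi j hj h => by split_ifs at h <;> omega
    have hrl : r * p ≤ c * p := Nat.mul_le_mul_right _ (by omega)
    have hj1 : j + 1 ≠ p := fun h => by simp [h] at hij
    by_cases hin : st L a + 2 + r * p + i < n
    · exact (hW _ hin _ (by omega)).2 (hV r hr i hi j hj hij)
    have b1 : st L a + 2 + r * p + i = n := by omega
    have b2 : st L a + 2 + r * p + (p - 2) = n - 1 := by omega
    rw [b1]
    by_cases hj2 : j = p - 2
    · rw [hj2, b2]; exact hlt
    · refine hlt.trans ?_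
      rw [← b2]
      exact (hW _ (by omega) _ (by omega)).2
        (hV r hr (p - 2) (by omega) j hj (by split_ifs <;> omega))
  · have e3 := hs c
    refine ⟨st L (a + c) + 1, 2, le_rfl, by omega, pw_two fun r hr => ?_⟩
    by_cases h : r = c
    · rw [show st L (a + c) + 1 + r * 2 = n - 1 by omega, show n - 1 + 1 = n by omega]
      exact hlt
    · have a4 := hL c
      rw [hW _ (by omega) _ (by omega), H.up (q := a + c) (r := 1 + r * 2) (by omega) (by omega)]
      omega

theorem Ok.left (H : Ok k Q L) (W : ℕ → ℕ) {n : ℕ} (hn : n = st L Q + 1)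
    (hW : ∀ i < n, ∀ j < n, (W (i + 1) < W (j + 1) ↔ V k Q L i < V k Q L j)) (hne : W 0 ≠ W 1) :
    ∃ s l, 2 ≤ l ∧ s + k * l ≤ n + 1 ∧ Pw k W s l := by
  have k3 := H.k3
  have kq := H.q1
  obtain ⟨c, rfl⟩ : ∃ c, k = c + 1 := ⟨k - 1, by omega⟩
  obtain ⟨p, hp⟩ : ∃ p, p = 2 * c + 1 := ⟨_, rfl⟩
  have hL : ∀ r < c, L r = p := fun r hr => by have := H.l1 r (by omega); omega
  have hs : ∀ r ≤ c, st L r = r * p := fun r hr => by
    simpa [st] using st_const (L := L) (a := 0) (c := p) r fun i hi => by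
      rw [zero_add]; exact hL i (by omega)
  have em : ∀ r, (r + 1) * p = r * p + p := fun r => by ring
  have e0 : st L (c + 1) ≤ st L Q := H.mono.monotone (by omega)
  have e1 := hs c le_rfl
  have e2 := em c
  have e3 := H.l2 c (by omega)
  rw [st_succ] at e0
  have e4 : p ≤ c * p := Nat.le_mul_of_pos_left _ (by omega)
  rcases lt_or_gt_of_ne hne with hlt | hlt
  · refine ⟨0, 2, le_rfl, by omega, pw_two fun r hr => ?_⟩
    rcases r with _ | r
    · simpa using hlt
    · have a4 := hL 0 (by omega)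
      rw [show 0 + (r + 1) * 2 = (2 * r + 1) + 1 by ring, hW _ (by omega) _ (by omega),
        H.up (q := 0) (r := 2 * r + 1) (by omega) (by simp [st])]
      omega
  · refine ⟨0, p, by omega, by omega, ?_⟩
    have hV : ∀ r < c + 1, ∀ i < p, ∀ j < p, ∀ x y, r * p + i = x + 1 → r * p + j = y + 1 →
        (if i = 0 then p + 1 else if i = 1 then p else i) <
          (if j = 0 then p + 1 else if j = 1 then p else j) →
        V (c + 1) Q L x < V (c + 1) Q L y := fun r hr i hi j hj x y hx hy hij => by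
      have a1 := hs r (by omega)
      have a4 := H.l2 r hr
      have hh : Hi (c + 1) Q r := Or.inl hr
      have top : j = 0 → ∃ u, r = u + 1 ∧ L u = p ∧ y = st L u + (p - 1) := fun h => by
        rcases r with _ | u
        · omega
        · have a5 := hL u (by omega)
          rw [st_succ] at a1
          exact ⟨u, rfl, a5, by omega⟩
      by_cases h1 : i = 1
      · obtain ⟨u, rfl, b1, b2⟩ := top (by split_ifs at hij <;> omega)
        rw [H.lt_ti (q := u + 1) (r := 0) (q' := u) (r' := p - 1) (by omega) (by omega)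
          (by omega) b2 (by rw [bd_hi hh, bd_top (by omega) (by omega)])
          (by rw [ix_lo (by omega), ix_top (by omega)]), ti_hi hh, ti_top (by omega) (by omega)]
        omega
      have h2 : 2 ≤ i := by split_ifs at hij <;> omega
      have h3 : bd (c + 1) Q L r (i - 1) ≤ i - 1 := by
        by_cases h : i = 2
        · rw [h, bd_one]; omega
        · rw [bd_mid (by omega) (by omega)]
      obtain ⟨q, t, b1, b2, b3⟩ : ∃ q t, t < L q ∧ y = st L q + t ∧
          i - 1 < bd (c + 1) Q L q t := by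
        by_cases h4 : j = 0
        · obtain ⟨u, rfl, b1, b2⟩ := top h4
          exact ⟨u, p - 1, by omega, b2, by rw [bd_top (by omega) (by omega)]; omega⟩
        by_cases h5 : j = 1
        · exact ⟨r, 0, by omega, by omega, by rw [bd_hi hh]; omega⟩
        have h6 : i < j := by split_ifs at hij <;> omega
        exact ⟨r, j - 1, by omega, by omega, by rw [bd_mid (by omega) (by omega)]; omega⟩
      rw [H.lt_bd (q := r) (r := i - 1) (by omega) b1 (by omega) b2 (by omega)]
      omega
    refine pw_rank (fun i => if i = 0 then p + 1 else if i = 1 then p else i)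
      (fun r hr i hi j hj hij => ?_) fun i hi j hj h => by split_ifs at h <;> omega
    have hrl : r * p ≤ c * p := Nat.mul_le_mul_right _ (by omega)
    have hi0 : i ≠ 0 := fun h => by split_ifs at hij <;> omega
    have old : ∀ j < p, 0 < r * p + j → (if i = 0 then p + 1 else if i = 1 then p else i) <
        (if j = 0 then p + 1 else if j = 1 then p else j) →
        W (0 + r * p + i) < W (0 + r * p + j) := fun j hj h0 hij => by
      obtain ⟨x, hx⟩ : ∃ x, r * p + i = x + 1 := ⟨r * p + i - 1, by omega⟩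
      obtain ⟨y, hy⟩ : ∃ y, r * p + j = y + 1 := ⟨r * p + j - 1, by omega⟩
      rw [zero_add, hx, hy]
      exact (hW _ (by omega) _ (by omega)).2 (hV r hr i hi j hj x y hx hy hij)
    by_cases hjp : 0 < r * p + j
    · exact old j hj hjp hij
    rw [show 0 + r * p + j = 0 by omega]
    have b2 : 0 + r * p + 1 = 1 := by omega
    by_cases hi1 : i = 1
    · rw [hi1, b2]; exact hlt
    · refine lt_trans ?_ hlt
      have := old 1 (by omega) (by omega) (by split_ifs <;> omega)
      rwa [b2] at this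

theorem exists_ok (hk : 3 ≤ k) {n : ℕ} (hn : 4 * k ^ 2 + 5 ≤ n + 2 * k) :
    ∃ Q L, Ok k Q L ∧ n = st L Q + 1 := by
  obtain ⟨c, rfl⟩ : ∃ c, k = c + 1 := ⟨k - 1, by omega⟩
  obtain ⟨p, hp⟩ : ∃ p, p = 2 * c + 1 := ⟨_, rfl⟩
  have e0 : 4 * (c + 1) ^ 2 = 2 * ((c + 1) * p) + 2 * (c + 1) := by rw [hp]; ring
  obtain ⟨R, hR⟩ : ∃ R, n = 2 * ((c + 1) * p) + 5 + R := ⟨n - (2 * ((c + 1) * p) + 5), by omega⟩
  set L : ℕ → ℕ := fun q => if q < c then p else if q = c then p + R % 4 / 3
    else if q = c + 1 then 4 + (R % 4 - R % 4 / 3) else if q < c + 2 + R / 4 then 4 else p with hL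
  refine ⟨c + 2 + R / 4 + (c + 1), L, ⟨hk, by omega, fun q => ?_, fun q => ?_, fun q h => ?_,
    fun q h => ?_, fun q h => ?_⟩, ?_⟩
  iterate 5 simp only [hL]; split_ifs <;> omega
  have a1 : st L (0 + c) = st L 0 + c * p :=
    st_const c fun i hi => by simp only [hL]; rw [if_pos (by omega)]
  have a2 : st L (c + 2 + R / 4) = st L (c + 2) + R / 4 * 4 :=
    st_const _ fun i hi => by simp only [hL]; split_ifs <;> omega
  have a3 : st L (c + 2 + R / 4 + (c + 1)) = st L (c + 2 + R / 4) + (c + 1) * p :=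
    st_const _ fun i hi => by simp only [hL]; split_ifs <;> omega
  have a4 : st L (c + 2) = st L c + L c + L (c + 1) := rfl
  have a5 : L c = p + R % 4 / 3 := by simp [hL]
  have a6 : L (c + 1) = 4 + (R % 4 - R % 4 / 3) := by simp [hL]
  have a7 : (c + 1) * p = c * p + p := by ring
  have a8 : st L 0 = 0 := rfl
  rw [zero_add] at a1
  omega

end Pool.Agent.Lib.MP_8f6629_co.AL
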