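import Mathlib

namespace Pool.Agent.Lib.MP_8f6629_co

/-- The entry at position `i` (positions counted from 0) of the one-line form of `σ`;
only used at positions `i < n`. -/
def entry {n : ℕ} (σ : Equiv.Perm (Fin n)) (i : ℕ) : ℕ :=
  if h : i < n then (σ ⟨i, h⟩ : ℕ) else 0

/-- `σ` contains a `k`-th power: a factor of length `k * l`, `l ≥ 2`, starting at position `s`,
whose `k` consecutive blocks of length `l` are pairwise order-isomorphic. -/
def HasPower (k : ℕ) {n : ℕ} (σ : Equiv.Perm (Fin n)) : Prop :=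
  ∃ s l : ℕ, 2 ≤ l ∧ s + k * l ≤ n ∧
    ∀ r < k, ∀ r' < k, ∀ i < l, ∀ j < l,
      (entry σ (s + r * l + i) < entry σ (s + r * l + j) ↔
        entry σ (s + r' * l + i) < entry σ (s + r' * l + j))

/-- The first `n` entries of `τ` are order-isomorphic to `σ`. -/
def IsRightExtension {n : ℕ} (σ : Equiv.Perm (Fin n)) (τ : Equiv.Perm (Fin (n + 1))) : Prop :=
  ∀ i j : Fin n, (τ i.castSucc < τ j.castSucc ↔ σ i < σ j)

/-- The last `n` entries of `τ` are order-isomorphic to `σ`. -/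
def IsLeftExtension {n : ℕ} (σ : Equiv.Perm (Fin n)) (τ : Equiv.Perm (Fin (n + 1))) : Prop :=
  ∀ i j : Fin n, (τ i.succ < τ j.succ ↔ σ i < σ j)

/-- `σ` is bicrucial with respect to `k`-th powers. -/
def Bicrucial (k : ℕ) {n : ℕ} (σ : Equiv.Perm (Fin n)) : Prop :=
  ¬ HasPower k σ ∧
    (∀ τ : Equiv.Perm (Fin (n + 1)), IsLeftExtension σ τ → HasPower k τ) ∧
    (∀ τ : Equiv.Perm (Fin (n + 1)), IsRightExtension σ τ → HasPower k τ)

end Pool.Agent.Lib.MP_8f6629_co
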