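import Pool.Agent.Lib.MP_8f6629_co.AL3
import Pool.Agent.Lib.MP_8f6629_co.Defs

/-! From sequences to permutations. -/

namespace Pool.Agent.Lib.MP_8f6629_co.AL

theorem entry_inj {n : ℕ} (σ : Equiv.Perm (Fin n)) (a b : ℕ) (ha : a < n) (hb : b < n)
    (h : entry σ a = entry σ b) : a = b := by
  unfold entry at h
  rw [dif_pos ha, dif_pos hb] at h
  simpa using σ.injective (Fin.ext h)

theorem pos_lt {k s l n r i : ℕ} (hb : s + k * l ≤ n) (hr : r < k) (hi : i < l) :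
    s + r * l + i < n := by
  have : (r + 1) * l ≤ k * l := Nat.mul_le_mul_right _ hr
  have h2 : (r + 1) * l = r * l + l := by ring
  omega

theorem bicrucial_of {α : Type} [LinearOrder α] {k n : ℕ} (hn : 2 ≤ n) (f : ℕ → α)
    (hf : Function.Injective f) (h0 : ∀ s l, 2 ≤ l → s + k * l ≤ n → ¬ Pw k f s l)
    (h1 : ∀ W : ℕ → ℕ, (∀ i < n, ∀ j < n, (W (i + 1) < W (j + 1) ↔ f i < f j)) → W 0 ≠ W 1 →
      ∃ s l, 2 ≤ l ∧ s + k * l ≤ n + 1 ∧ Pw k W s l)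
    (h2 : ∀ W : ℕ → ℕ, (∀ i < n, ∀ j < n, (W i < W j ↔ f i < f j)) → W n ≠ W (n - 1) →
      ∃ s l, 2 ≤ l ∧ s + k * l ≤ n + 1 ∧ Pw k W s l) :
    ∃ σ : Equiv.Perm (Fin n), Bicrucial k σ := by
  obtain ⟨σ, hσ⟩ := exists_perm n f hf
  refine ⟨σ, ?_, fun τ hτ => h1 (entry τ) (fun i hi j hj => ?_) fun h => ?_,
    fun τ hτ => h2 (entry τ) (fun i hi j hj => ?_) fun h => ?_⟩
  · rintro ⟨s, l, hl, hb, h⟩
    refine h0 s l hl hb fun r hr r' hr' i hi j hj => ?_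
    have key : ∀ a < n, ∀ b < n, (entry σ a < entry σ b ↔ f a < f b) := fun a ha b hb => by
      unfold entry
      rw [dif_pos ha, dif_pos hb]
      exact hσ ⟨a, ha⟩ ⟨b, hb⟩
    rw [← key _ (pos_lt hb hr hi) _ (pos_lt hb hr hj),
      ← key _ (pos_lt hb hr' hi) _ (pos_lt hb hr' hj)]
    exact h r hr r' hr' i hi j hj
  · rw [← hσ ⟨i, hi⟩ ⟨j, hj⟩, ← hτ ⟨i, hi⟩ ⟨j, hj⟩]
    unfold entry
    rw [dif_pos (by omega), dif_pos (by omega)]
    rfl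
  · have := entry_inj τ 0 1 (by omega) (by omega) h
    omega
  · rw [← hσ ⟨i, hi⟩ ⟨j, hj⟩, ← hτ ⟨i, hi⟩ ⟨j, hj⟩]
    unfold entry
    rw [dif_pos (by omega), dif_pos (by omega)]
    rfl
  · have := entry_inj τ n (n - 1) (by omega) (by omega) h
    omega

theorem all_lengths {k n : ℕ} (hk : 3 ≤ k) (hn : 4 * k ^ 2 + 5 ≤ n + 2 * k) :
    ∃ σ : Equiv.Perm (Fin n), Bicrucial k σ := by
  obtain ⟨Q, L, H, e⟩ := exists_ok hk hn
  exact bicrucial_of (by nlinarith) (V k Q L) H.inj (fun s l hl hb => H.free hl (e ▸ hb))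
    (fun W => H.left W e) fun W => H.right W e

end Pool.Agent.Lib.MP_8f6629_co.AL
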