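import Pool.Agent.Lib.MP_8f6629_co.Ext

namespace Pool.Agent.Lib.MP_8f6629_co.AllK

/-- The entry at position `i` (positions counted from 0) of the one-line notation of `σ`;
only used at positions `i < n`. -/
def entry {n : ℕ} (σ : Equiv.Perm (Fin n)) (i : ℕ) : ℕ :=
  if h : i < n then (σ ⟨i, h⟩ : ℕ) else 0

/-- `σ` contains a `k`-th power: a factor of length `k * l`, `l ≥ 2`, starting at position `s`,
whose `k` consecutive blocks of length `l` are pairwise order-isomorphic. -/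
def HasPower (k : ℕ) {n : ℕ} (σ : Equiv.Perm (Fin n)) : Prop :=
  ∃ s l : ℕ, 2 ≤ l ∧ s + k * l ≤ n ∧
    ∀ r < k, ∀ r' < k, ∀ i < l, ∀ j < l,
      (entry σ (s + r * l + i) < entry σ (s + r * l + j) ↔
        entry σ (s + r' * l + i) < entry σ (s + r' * l + j))

/-- The first `n` entries of `τ` are order-isomorphic to `σ`. -/
def IsRightExtension {n : ℕ} (σ : Equiv.Perm (Fin n)) (τ : Equiv.Perm (Fin (n + 1))) : Prop :=
  ∀ i j : Fin n, (τ i.castSucc < τ j.castSucc ↔ σ i < σ j)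

/-- The last `n` entries of `τ` are order-isomorphic to `σ`. -/
def IsLeftExtension {n : ℕ} (σ : Equiv.Perm (Fin n)) (τ : Equiv.Perm (Fin (n + 1))) : Prop :=
  ∀ i j : Fin n, (τ i.succ < τ j.succ ↔ σ i < σ j)

/-- `σ` is bicrucial with respect to `k`-th powers. -/
def Bicrucial (k : ℕ) {n : ℕ} (σ : Equiv.Perm (Fin n)) : Prop :=
  ¬ HasPower k σ ∧
    (∀ τ : Equiv.Perm (Fin (n + 1)), IsLeftExtension σ τ → HasPower k τ) ∧
    (∀ τ : Equiv.Perm (Fin (n + 1)), IsRightExtension σ τ → HasPower k τ)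

open Pool.Agent.Lib.MP_8f6629_co

lemma entry_inj {n : ℕ} (σ : Equiv.Perm (Fin n)) (a b : ℕ) (ha : a < n) (hb : b < n)
    (h : entry σ a = entry σ b) : a = b := by
  unfold entry at h
  rw [dif_pos ha, dif_pos hb] at h
  have := σ.injective (Fin.ext h)
  simpa using this

theorem result (k : ℕ) (hk : 3 ≤ k) (N : ℕ) :
    ∃ n : ℕ, N ≤ n ∧ ∃ σ : Equiv.Perm (Fin n), Bicrucial k σ := by
  obtain ⟨c, rfl⟩ : ∃ c, k = c + 3 := ⟨k - 3, by omega⟩
  obtain ⟨n, hn⟩ : ∃ n, n = (2 * c + 6) * (2 * c + 7 + 2 * N) + 1 := ⟨_, rfl⟩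
  refine ⟨n, by nlinarith, ?_⟩
  obtain ⟨σ, hσ⟩ := exists_perm n (V c N) (fun a b h => V_inj c N a b h)
  have hpos : 2 ≤ n := by nlinarith
  refine ⟨σ, ?_, ?_, ?_⟩
  · rintro ⟨s, l, hl, hb, h⟩
    apply V_free c N s l hl (hn ▸ hb)
    have key : ∀ a < n, ∀ b < n, (entry σ a < entry σ b ↔ V c N a < V c N b) := by
      intro a ha b hb
      unfold entry
      rw [dif_pos ha, dif_pos hb]
      exact hσ ⟨a, ha⟩ ⟨b, hb⟩
    have bd : ∀ r < c + 3, ∀ i < l, s + r * l + i < n := by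
      intro r hr i hi
      have : (r + 1) * l ≤ (c + 3) * l := Nat.mul_le_mul_right _ hr
      have h2 : (r + 1) * l = r * l + l := by ring
      omega
    intro r hr r' hr' i hi j hj
    rw [← key _ (bd r hr i hi) _ (bd r hr j hj), ← key _ (bd r' hr' i hi) _ (bd r' hr' j hj)]
    exact h r hr r' hr' i hi j hj
  · intro τ hτ
    apply left_ext c N (entry τ) n hn
    · intro i hi j hj
      rw [← hσ ⟨i, hi⟩ ⟨j, hj⟩, ← hτ ⟨i, hi⟩ ⟨j, hj⟩]
      unfold entry
      rw [dif_pos (by omega), dif_pos (by omega)]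
      rfl
    · intro h
      have := entry_inj τ 0 1 (by omega) (by omega) h
      omega
  · intro τ hτ
    apply right_ext c N (entry τ) n hn
    · intro i hi j hj
      rw [← hσ ⟨i, hi⟩ ⟨j, hj⟩, ← hτ ⟨i, hi⟩ ⟨j, hj⟩]
      unfold entry
      rw [dif_pos (by omega), dif_pos (by omega)]
      rfl
    · intro h
      have := entry_inj τ n (n - 1) (by omega) (by omega) h
      omega

end Pool.Agent.Lib.MP_8f6629_co.AllK
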