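import Pool.Agent.Lib.MP_8f6629_co.ML3

/-! Cubes: the lengths 17, 18 and 22 do not occur. -/

namespace Pool.Agent.Lib.MP_8f6629_co.ML

/-- The conditions of a period that only involve letters with index below `d`. -/
def PU (n d : ℕ) (y : ℕ → Bool) (l : ℕ) (c : Bool) : Prop :=
  2 ≤ l ∧ 3 * l ≤ n + 1 ∧ (∀ r < 3, 1 ≤ r → 1 + r * l < d → y (1 + r * l) = c) ∧
    ∀ t < 2 * l, 2 ≤ t → ¬ l ∣ t → t + l < d → y (t + l) = y t

instance (n d : ℕ) (y : ℕ → Bool) (l : ℕ) (c : Bool) : Decidable (PU n d y l c) := by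
  unfold PU
  infer_instance

/-- The conditions of a crucial end that only involve letters with index below `d`. -/
def EU (n d : ℕ) (y : ℕ → Bool) : Prop :=
  (7 ≤ d → ¬ (y (d - 3) = y (d - 5) ∧ y (d - 1) = y (d - 5))) ∧ (∀ c, ∃ l < 8, PU n d y l c) ∧
    (PU n d y 2 (!y 2) ∨ ∃ l < 8, PU n d y l (!y 2) ∧ ∃ l' < 8, PU n d y l' (!y 2) ∧
      l ≠ l' ∧ 2 * l ≠ l' ∧ l ≠ 2 * l')

instance (n d : ℕ) (y : ℕ → Bool) : Decidable (EU n d y) := by
  unfold EU
  infer_instance

/-- `l` is the only candidate for a period. -/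
def UQ (n : ℕ) (y : ℕ → Bool) (l : ℕ) (c : Bool) : Prop := ∀ l' < 8, PU n (n + 1) y l' c → l' = l

instance (n : ℕ) (y : ℕ → Bool) (l : ℕ) (c : Bool) : Decidable (UQ n y l c) := by
  unfold UQ
  infer_instance

/-- The word read from the other end. -/
def rv (n : ℕ) (y : ℕ → Bool) (t : ℕ) : Bool := !y (n + 2 - t)

/-- The words that survive. -/
def Fi (n : ℕ) (y : ℕ → Bool) : Prop :=
  EU n (n + 1) (rv n y) → ∃ c, (n = 17 ∧ UQ n y 6 c ∧ UQ n (rv n y) 6 c) ∨
    (n = 18 ∧ UQ n y 5 c ∧ UQ n (rv n y) 5 c) ∨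
    (n = 18 ∧ UQ n y 6 c ∧ UQ n (rv n y) 6 (!c) ∧ ∀ r < 3, ∀ i < 3, y (r * 6 + i + 3) = !c)

instance (n : ℕ) (y : ℕ → Bool) : Decidable (Fi n y) := by
  unfold Fi
  infer_instance

/-- Set letter `d`. -/
def upd (y : ℕ → Bool) (d : ℕ) (b : Bool) (t : ℕ) : Bool := if t = d then b else y t

/-- Search over all words. -/
def go (n : ℕ) : ℕ → ℕ → (ℕ → Bool) → Bool
  | 0, _, y => decide (Fi n y)
  | m + 1, d, y =>
    (decide (¬ EU n (d + 1) (upd y d true)) || go n m (d + 1) (upd y d true)) &&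
      (decide (¬ EU n (d + 1) (upd y d false)) || go n m (d + 1) (upd y d false))

theorem go17 : go 17 16 2 (fun _ => false) = true := by decide +kernel
theorem go18 : go 18 17 2 (fun _ => false) = true := by decide +kernel
theorem go22 : go 22 21 2 (fun _ => false) = true := by decide +kernel

variable {n d l : ℕ} {x y : ℕ → Bool} {c : Bool}

theorem Per.pu (p : Per 3 n x l c) (h : ∀ t, 2 ≤ t → t < d → y t = x t) : PU n d y l c := by
  have := p.lo
  refine ⟨p.lo, p.hi, fun r hr h1 hd => (h _ (by nlinarith) hd).trans (p.hd r h1 hr),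
    fun t ht h2 hn hd => ?_⟩
  rw [h _ (by omega) hd, h _ h2 (by omega)]
  exact p.mv t h2 hn (by omega)

theorem End.eu (E : End 3 n x) (hn : n ≤ 22) (h3 : 3 ≤ d) (hd : d ≤ n + 1)
    (h : ∀ t, 2 ≤ t → t < d → y t = x t) : EU n d y := by
  have bd : ∀ {l c}, Per 3 n x l c → l < 8 := fun p => by have := p.hi; omega
  refine ⟨fun h7 ⟨a, b⟩ => E.free (d - 5) (by omega) (by omega) fun r hr => ?_, fun c => ?_, ?_⟩
  · rw [h _ (by omega) (by omega), h _ (by omega) (by omega)] at a b
    interval_cases r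
    · rfl
    · rwa [show d - 5 + 1 * 2 = d - 3 by omega]
    · rwa [show d - 5 + 2 * 2 = d - 1 by omega]
  · obtain ⟨l, p⟩ := E.one c
    exact ⟨l, bd p, p.pu h⟩
  · rw [h 2 le_rfl h3]
    rcases E.two (!x 2) (by simp) with p | ⟨l, l', p, p', e⟩
    · exact Or.inl (p.pu h)
    · have e1 := e 1 1 (by omega) (by omega) (by omega) (by omega)
      have e2 := e 2 1 (by omega) (by omega) (by omega) (by omega)
      have e3 := e 1 2 (by omega) (by omega) (by omega) (by omega)
      exact Or.inr ⟨l, bd p, p.pu h, l', bd p', p'.pu h, by omega, by omega, by omega⟩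

theorem go_sound (E : End 3 n x) (hn : n ≤ 22) : ∀ m d y, 2 ≤ d → d + m = n + 1 →
    (∀ t, 2 ≤ t → t < d → y t = x t) → go n m d y = true →
    ∃ y, (∀ t, 2 ≤ t → t < n + 1 → y t = x t) ∧ Fi n y
  | 0, d, y, _, e, h, g => ⟨y, by rwa [← e], of_decide_eq_true g⟩
  | m + 1, d, y, h2, e, h, g => by
    have h' : ∀ t, 2 ≤ t → t < d + 1 → upd y d (x d) t = x t := fun t a b => by
      unfold upd
      split_ifs with q
      · rw [q]
      · exact h t a (by omega)
    have := E.eu hn (by omega) (by omega) h'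
    refine go_sound E hn m (d + 1) _ (by omega) (by omega) h' ?_
    simp only [go, Bool.and_eq_true, Bool.or_eq_true, decide_eq_true_eq] at g
    cases q : x d <;> rw [q] at this
    · exact g.2.resolve_left (not_not.2 this)
    · exact g.1.resolve_left (not_not.2 this)

variable {f : ℕ → ℤ}

theorem Cru.uniq (H : Cru 3 n f) (hu : ∀ l', Per 3 n (lett f) l' c → l' = l) {r i : ℕ} (hr : r < 3)
    (hi : i + 1 < l) : (if c then f (r * l) ≤ f (r * l + i) else f (r * l + i) ≤ f (r * l)) ∧
      (1 ≤ r → (f (r * l - 1) < f (r * l + i) ↔ c = true)) := by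
  have key : ∀ t, decide (t ≤ f 0) = c → Pw 3 (cons t f) 0 l := fun t e => by
    obtain ⟨l', hl, hb, hp⟩ := H.ext t
    exact hu l' (e ▸ per_of hl hb hp) ▸ hp
  have two : ∀ t t', decide (t ≤ f 0) = c → decide (t' ≤ f 0) = c → (t ≤ f i ↔ t' ≤ f i) :=
    fun t t' e e' => by rw [slot (key t e) le_rfl (by omega) hi, slot (key t' e') le_rfl (by omega) hi]
  have blk : ∀ t, Pw 3 (cons t f) 0 l → (f i < f 0 ↔ f (r * l + i) < f (r * l)) ∧
      (f 0 < f i ↔ f (r * l) < f (r * l + i)) := fun t hp => by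
    have a := hp 0 (by omega) r hr (i + 1) hi 1 (by omega)
    have b := hp 0 (by omega) r hr 1 (by omega) (i + 1) hi
    simp only [cons, zero_mul, zero_add, ← add_assoc, Nat.add_one_ne_zero, one_ne_zero, if_false,
      Nat.add_sub_cancel, Nat.sub_self] at a b
    omega
  cases c
  · have p := key (f 0 + 1) (by simp)
    have h0 : f i ≤ f 0 := by
      by_contra h
      have := two (f 0 + 1) (f i + 1) (by simp) (by simp; omega)
      omega
    have := blk _ p
    refine ⟨by simp; omega, fun h1 => ?_⟩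
    rw [← slot p h1 hr hi]
    simp; omega
  · have p := key (f 0) (by simp)
    have h0 : f 0 ≤ f i := by
      by_contra h
      have := two (f 0) (f i) (by simp) (by simp; omega)
      omega
    have := blk _ p
    refine ⟨by simp; omega, fun h1 => ?_⟩
    rw [← slot p h1 hr hi]
    simpa

theorem UQ.uniq (u : UQ n y l c) (hn : n ≤ 22) (h : ∀ t, 2 ≤ t → t < n + 1 → y t = x t) :
    ∀ l', Per 3 n x l' c → l' = l := fun l' p => u l' (by have := p.hi; omega) (p.pu h)

theorem gap (H : Cru 3 n f) (H' : Cru 3 n fun i => f (n - 1 - i))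
    (hn : n = 17 ∨ n = 18 ∨ n = 22) : False := by
  have h22 : n ≤ 22 := by omega
  obtain ⟨y, h, F⟩ := go_sound (H.word (by omega)) h22 (n - 1) 2 (fun _ => false) le_rfl (by omega)
    (fun t a b => by omega) (by
      rcases hn with rfl | rfl | rfl
      exacts [go17, go18, go22])
  have h' : ∀ t, 2 ≤ t → t < n + 1 → rv n y t = lett (fun i => f (n - 1 - i)) t := fun t a b => by
    rw [lett_rev H t (n + 2 - t) a (by omega) (by omega), rv, h _ (by omega) (by omega)]
  obtain ⟨c, ⟨rfl, u, u'⟩ | ⟨rfl, u, u'⟩ | ⟨rfl, u, u', w⟩⟩ :=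
    F ((H'.word (by omega)).eu h22 (by omega) le_rfl h')
  · have a := (H.uniq (u.uniq h22 h) (r := 0) (i := 4) (by omega) (by omega)).1
    have b := (H'.uniq (u'.uniq h22 h') (r := 2) (i := 4) (by omega) (by omega)).1
    have := H.inj 0 (by omega) 4 (by omega)
    cases c <;> simp at a b <;> omega
  · have a := (H.uniq (u.uniq h22 h) (r := 1) (i := 3) (by omega) (by omega)).2 le_rfl
    have b := (H'.uniq (u'.uniq h22 h') (r := 2) (i := 3) (by omega) (by omega)).2 (by omega)
    have := H.inj 4 (by omega) 8 (by omega)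
    cases c <;> simp at a b <;> omega
  · have key : ∀ r < 3, ∀ i < 6, ∀ j < 6, f (0 + r * 6 + i) < f (0 + r * 6 + j) ↔
        if c then [5, 1, 2, 3, 4, 0].getD j 0 < [5, 1, 2, 3, 4, 0].getD i 0
        else [5, 1, 2, 3, 4, 0].getD i 0 < [5, 1, 2, 3, 4, 0].getD j 0 := fun r hr i hi j hj => by
      have a := (H.uniq (u.uniq h22 h) (r := r) (i := 4) hr (by omega)).1
      have b := (H'.uniq (u'.uniq h22 h') (r := 2 - r) (i := 4) (by omega) (by omega)).1
      simp only [show 18 - 1 - (2 - r) * 6 = r * 6 + 5 by omega,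
        show 18 - 1 - ((2 - r) * 6 + 4) = r * 6 + 1 by omega] at b
      have w' : ∀ i < 3, (f (r * 6 + (i + 1)) < f (r * 6 + (i + 2)) ↔ c = false) ∧
          f (r * 6 + (i + 1)) ≠ f (r * 6 + (i + 2)) := fun i hi => by
        have := w r hr i hi
        rw [h _ (by omega) (by omega), lett, show r * 6 + i + 3 - 2 = r * 6 + (i + 1) by omega,
          show r * 6 + i + 3 - 1 = r * 6 + (i + 2) by omega] at this
        refine ⟨?_, fun e => by have := H.inj _ (by omega) _ (by omega) e; omega⟩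
        cases c <;> simpa using this
      have w0 := w' 0 (by omega)
      have w1 := w' 1 (by omega)
      have w2 := w' 2 (by omega)
      have i1 := H.inj (r * 6) (by omega) (r * 6 + 4) (by omega)
      have i2 := H.inj (r * 6 + 1) (by omega) (r * 6 + 5) (by omega)
      cases c <;> simp at a b w0 w1 w2 <;> interval_cases i <;> interval_cases j <;> simp <;> omega
    refine H.free 0 6 (by omega) (by omega) fun r hr r' hr' i hi j hj => ?_
    rw [key r hr i hi j hj, key r' hr' i hi j hj]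

end Pool.Agent.Lib.MP_8f6629_co.ML
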