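import Pool.Agent.Lib.MP_8f6629_co.C3a

/-! Cubes: the list of all lengths. -/

namespace Pool.Agent.Lib.MP_8f6629_co.ML

instance (k : ℕ) (f : ℕ → ℕ) (s l : ℕ) : Decidable (Pw k f s l) := by
  unfold Pw
  infer_instance

/-- One period serves all new entries below the first entry, one all new entries above it. -/
def Simple (k n : ℕ) (g : ℕ → ℕ) : Prop :=
  (∃ l < n, 2 ≤ l ∧ k * l ≤ n + 1 ∧ (∀ i < l - 1, g 0 ≤ g i) ∧
    Pw k (fun i => if i = 0 then 0 else g (i - 1) + 1) 0 l) ∧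
  ∃ l < n, 2 ≤ l ∧ k * l ≤ n + 1 ∧ (∀ i < l - 1, g i ≤ g 0) ∧
    Pw k (fun i => if i = 0 then g 0 + 1 else g (i - 1)) 0 l

instance (k n : ℕ) (g : ℕ → ℕ) : Decidable (Simple k n g) := by
  unfold Simple
  infer_instance

theorem Simple.ext {k n : ℕ} {g : ℕ → ℕ} (S : Simple k n g) (W : ℕ → ℕ)
    (hW : ∀ i < n, ∀ j < n, (W (i + 1) < W (j + 1) ↔ g i < g j)) (hne : W 0 ≠ W 1) :
    ∃ l, 2 ≤ l ∧ k * l ≤ n + 1 ∧ Pw k W 0 l := by
  have key : ∀ (M : ℕ → ℕ) (l : ℕ), l < n → k * l ≤ n + 1 → Pw k M 0 l →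
      (∀ i j, M (i + 1) < M (j + 1) ↔ g i < g j) →
      (∀ i < l - 1, (W 0 < W (i + 1) ↔ M 0 < M (i + 1)) ∧ (W (i + 1) < W 0 ↔ M (i + 1) < M 0)) →
      Pw k W 0 l := fun M l hl hb hp h1 h2 => by
    have e : ∀ r < k, ∀ i < l, ∀ j < l, W (0 + r * l + i) < W (0 + r * l + j) ↔
        M (0 + r * l + i) < M (0 + r * l + j) := fun r hr i hi j hj => by
      have a := AL.pos_lt (s := 0) (n := n + 1) (by omega) hr hi
      have b := AL.pos_lt (s := 0) (n := n + 1) (by omega) hr hj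
      have c : 0 + r * l + i = 0 → 0 + r * l + j < l := by omega
      have d : 0 + r * l + j = 0 → 0 + r * l + i < l := by omega
      generalize 0 + r * l + i = u, 0 + r * l + j = v at a b c d
      rcases u with _ | u <;> rcases v with _ | v
      · simp
      · exact (h2 v (by omega)).1
      · exact (h2 u (by omega)).2
      · rw [hW u (by omega) v (by omega), h1]
    intro r hr r' hr' i hi j hj
    rw [e r hr i hi j hj, e r' hr' i hi j hj]
    exact hp r hr r' hr' i hi j hj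
  rcases hne.lt_or_gt with h | h
  · obtain ⟨l, hn, hl, hb, hg, hp⟩ := S.1
    refine ⟨l, hl, hb, key _ l hn hb hp (fun i j => by simp) fun i hi => ?_⟩
    have := hW i (by omega) 0 (by omega)
    have := hg i hi
    simp at *
    omega
  · obtain ⟨l, hn, hl, hb, hg, hp⟩ := S.2
    refine ⟨l, hl, hb, key _ l hn hb hp (fun i j => by simp) fun i hi => ?_⟩
    have := hW 0 (by omega) i (by omega)
    have := hg i hi
    simp at *
    omega

/-- A checkable certificate. -/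
def Good (k n : ℕ) (L : List ℕ) : Prop :=
  2 ≤ n ∧ L.length = n ∧ (∀ i < n, L.getD i i < n) ∧
    (∀ i < n, ∀ j < n, L.getD i i = L.getD j j → i = j) ∧
    (∀ l < n + 1, 2 ≤ l → ∀ s < n + 1, s + k * l ≤ n → ¬ Pw k (fun i => L.getD i i) s l) ∧
    Simple k n (fun i => L.getD i i) ∧ Simple k n fun i => L.getD (n - 1 - i) 0

instance (k n : ℕ) (L : List ℕ) : Decidable (Good k n L) := by
  unfold Good
  infer_instance

theorem of_good {n : ℕ} (L : List ℕ) (G : Good 3 n L) :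
    ∃ σ : Equiv.Perm (Fin n), Bicrucial 3 σ := by
  obtain ⟨h2, hL, hb, hi, hf, S, S'⟩ := G
  have big : ∀ i, n ≤ i → L.getD i i = i := fun i h => List.getD_eq_default _ _ (by omega)
  refine AL.bicrucial_of h2 (fun i => L.getD i i) (fun i j h => ?_)
    (fun s l hl hs => hf l (by omega) hl s (by omega) hs) (fun W hW hne => ?_) fun W hW hne => ?_
  · have := hb i
    have := hb j
    have := big i
    have := big j
    have := hi i
    simp only at h
    by_cases i < n <;> by_cases h' : j < n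
    · exact hi i ‹_› j h' h
    all_goals omega
  · obtain ⟨l, hl, hs, hp⟩ := S.ext W hW hne
    exact ⟨0, l, hl, by omega, hp⟩
  · obtain ⟨l, hl, hs, hp⟩ := S'.ext (fun i => W (n - i)) (fun i hi j hj => by
      have e : ∀ i < n, L.getD (n - 1 - i) 0 = L.getD (n - 1 - i) (n - 1 - i) := fun i _ => by
        rw [List.getD_eq_getElem _ _ (by omega), List.getD_eq_getElem _ _ (by omega)]
      rw [e i hi, e j hj, ← hW _ (by omega) _ (by omega), show n - (i + 1) = n - 1 - i by omega,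
        show n - (j + 1) = n - 1 - j by omega]) hne
    refine ⟨n + 1 - 3 * l, l, hl, by omega, pw_congr (pw_rev hp) fun i hi j hj => ?_⟩
    rw [show n - (0 + 3 * l - 1 - (0 + i)) = n + 1 - 3 * l + i by omega,
      show n - (0 + 3 * l - 1 - (0 + j)) = n + 1 - 3 * l + j by omega]

theorem ex19 : ∃ σ : Equiv.Perm (Fin 19), Bicrucial 3 σ :=
  of_good
    [0, 5, 4, 3, 2, 1, 7, 12, 10, 9, 8, 6, 11, 17, 16, 15, 14, 13, 18]
    (by decide +kernel)

theorem ex20 : ∃ σ : Equiv.Perm (Fin 20), Bicrucial 3 σ :=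
  of_good
    [0, 4, 3, 2, 1, 5, 6, 7, 11, 10, 9, 8, 12, 13, 14, 18, 17, 16, 15, 19]
    (by decide +kernel)

theorem ex21 : ∃ σ : Equiv.Perm (Fin 21), Bicrucial 3 σ :=
  of_good
    [15, 0, 1, 2, 14, 13, 10, 11, 12, 16, 9, 3, 6, 7, 8, 5, 4, 18, 19, 20, 17]
    (by decide +kernel)

theorem ex23 : ∃ σ : Equiv.Perm (Fin 23), Bicrucial 3 σ :=
  of_good
    [0, 5, 4, 3, 2, 1, 6, 7, 8, 13, 12, 11, 10, 9, 14, 15, 16, 21, 20, 19, 18, 17, 22]
    (by decide +kernel)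

theorem ex24 : ∃ σ : Equiv.Perm (Fin 24), Bicrucial 3 σ :=
  of_good
    [4, 0, 1, 2, 3, 20, 19, 15, 16, 17, 18, 14, 13, 9, 10, 11, 12, 8, 7, 6, 21, 22, 23, 5]
    (by decide +kernel)

theorem ex25 : ∃ σ : Equiv.Perm (Fin 25), Bicrucial 3 σ :=
  of_good
    [0, 9, 4, 5, 3, 2, 6, 1, 8, 15, 12, 13, 11, 10, 14, 7, 16, 24, 20, 21, 19, 18, 22, 17, 23]
    (by decide +kernel)

theorem ex26 : ∃ σ : Equiv.Perm (Fin 26), Bicrucial 3 σ :=
  of_good
    [1, 8, 6, 2, 0, 3, 7, 5, 4, 9, 17, 24, 19, 18, 16, 22, 23, 14, 13, 10, 15, 21, 20, 12, 11,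
    25]
    (by decide +kernel)

theorem ex27 : ∃ σ : Equiv.Perm (Fin 27), Bicrucial 3 σ :=
  of_good
    [25, 1, 2, 3, 24, 23, 0, 4, 22, 20, 19, 16, 17, 18, 21, 26, 15, 14, 10, 11, 12, 9, 5, 7, 8,
    13, 6]
    (by decide +kernel)

theorem ex28 : ∃ σ : Equiv.Perm (Fin 28), Bicrucial 3 σ :=
  of_good
    [6, 9, 8, 7, 1, 2, 5, 4, 3, 0, 10, 20, 19, 11, 25, 26, 27, 24, 23, 18, 21, 22, 17, 13, 14,
    15, 16, 12]
    (by decide +kernel)

theorem ex29 : ∃ σ : Equiv.Perm (Fin 29), Bicrucial 3 σ :=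
  of_good
    [17, 0, 15, 16, 22, 21, 14, 19, 20, 18, 13, 7, 8, 12, 10, 11, 3, 2, 6, 25, 23, 24, 5, 4, 9,
    28, 26, 27, 1]
    (by decide +kernel)

theorem ex30 : ∃ σ : Equiv.Perm (Fin 30), Bicrucial 3 σ :=
  of_good
    [4, 21, 20, 18, 2, 3, 19, 17, 16, 0, 1, 24, 23, 22, 15, 14, 26, 28, 29, 25, 13, 11, 12, 27,
    10, 6, 7, 8, 9, 5]
    (by decide +kernel)

theorem ex31 : ∃ σ : Equiv.Perm (Fin 31), Bicrucial 3 σ :=
  of_good
    [1, 9, 8, 7, 2, 5, 6, 4, 3, 0, 10, 20, 18, 17, 12, 15, 16, 14, 13, 11, 19, 29, 28, 27, 22,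
    25, 26, 24, 23, 21, 30]
    (by decide +kernel)

theorem ex32 : ∃ σ : Equiv.Perm (Fin 32), Bicrucial 3 σ :=
  of_good
    [27, 30, 29, 28, 22, 23, 26, 25, 24, 0, 2, 21, 5, 4, 3, 1, 16, 31, 17, 18, 19, 15, 14, 12,
    13, 20, 11, 7, 8, 9, 10, 6]
    (by decide +kernel)

theorem ex33 : ∃ σ : Equiv.Perm (Fin 33), Bicrucial 3 σ :=
  of_good
    [0, 9, 4, 3, 1, 5, 8, 7, 6, 2, 10, 12, 21, 16, 15, 13, 17, 20, 19, 18, 14, 11, 22, 31, 26,
    25, 23, 27, 30, 29, 28, 24, 32]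
    (by decide +kernel)

theorem ex34 : ∃ σ : Equiv.Perm (Fin 34), Bicrucial 3 σ :=
  of_good
    [0, 12, 9, 8, 2, 3, 4, 7, 6, 5, 1, 11, 21, 20, 19, 13, 14, 15, 18, 17, 16, 10, 22, 33, 31,
    30, 24, 25, 26, 29, 28, 27, 23, 32]
    (by decide +kernel)

theorem cubes (n : ℕ) : (∃ σ : Equiv.Perm (Fin n), Bicrucial 3 σ) ↔
    n = 16 ∨ n = 19 ∨ n = 20 ∨ n = 21 ∨ 23 ≤ n := by
  constructor
  · rintro ⟨σ, h⟩
    have h1 := length_ge le_rfl h
    have h2 := gap (cru_left h) (cru_right h)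
    by_contra
    exact h2 (by omega)
  · rintro (rfl | rfl | rfl | rfl | h)
    · exact exists_short (k := 3) (m := 5) le_rfl rfl
    · exact ex19
    · exact ex20
    · exact ex21
    by_cases h' : 35 ≤ n
    · exact AL.all_lengths le_rfl (by omega)
    interval_cases n
    exacts [ex23, ex24, ex25, ex26, ex27, ex28, ex29, ex30, ex31, ex32, ex33, ex34]

end Pool.Agent.Lib.MP_8f6629_co.ML
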