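import Mathlib

namespace Pool.Agent.Lib.MP_8f6629_co

/-- the `k` consecutive blocks of length `l` starting at `s` are pairwise order-isomorphic -/
def Pw {α : Type} [LT α] (k : ℕ) (f : ℕ → α) (s l : ℕ) : Prop :=
  ∀ r < k, ∀ r' < k, ∀ i < l, ∀ j < l,
    (f (s + r * l + i) < f (s + r * l + j) ↔ f (s + r' * l + i) < f (s + r' * l + j))

def cc (n : ℕ) : ℕ := if n % 2 = 1 then 1 else if n % 4 = 0 then 0 else 2

/-- a cube-free infinite permutation -/
def P (n : ℕ) : ℚ := if _h : n = 0 then 0 else ((cc n : ℚ) + P (n / 2)) / 3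
decreasing_by omega

lemma P_eq (n : ℕ) : P n = ((cc n : ℚ) + P (n / 2)) / 3 := by
  by_cases h : n = 0
  · subst h
    have h0 : P 0 = 0 := by rw [P]; simp
    simp [cc, h0]
  · conv_lhs => rw [P]
    simp [h]

lemma cc_le (n : ℕ) : cc n ≤ 2 := by
  unfold cc; split_ifs <;> omega

lemma P_bounds (n : ℕ) : 0 ≤ P n ∧ P n < 1 := by
  induction n using Nat.strong_induction_on with
  | _ n ih =>
    by_cases h : n = 0
    · subst h
      have h0 : P 0 = 0 := by rw [P]; simp
      simp [h0]
    · have h1 := ih (n / 2) (by omega)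
      have h2 : (cc n : ℚ) ≤ 2 := by exact_mod_cast cc_le n
      have h3 : (0 : ℚ) ≤ cc n := by positivity
      rw [P_eq]
      constructor <;> linarith [h1.1, h1.2]

lemma lex_lt (a b : ℕ) (x y : ℚ) (hx : 0 ≤ x ∧ x < 1) (hy : 0 ≤ y ∧ y < 1) :
    (a : ℚ) + x < b + y ↔ a < b ∨ (a = b ∧ x < y) := by
  constructor
  · intro h
    rcases lt_trichotomy a b with h1 | h1 | h1
    · exact Or.inl h1
    · subst h1; exact Or.inr ⟨rfl, by linarith⟩
    · exfalso
      have : (b : ℚ) + 1 ≤ a := by exact_mod_cast h1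
      linarith [hx.1, hy.2]
  · rintro (h | ⟨h, h2⟩)
    · have : (a : ℚ) + 1 ≤ b := by exact_mod_cast h
      linarith [hx.2, hy.1]
    · subst h; linarith

lemma P_lt (a b : ℕ) : P a < P b ↔ cc a < cc b ∨ (cc a = cc b ∧ P (a / 2) < P (b / 2)) := by
  rw [← lex_lt _ _ _ _ (P_bounds _) (P_bounds _), P_eq a, P_eq b]
  constructor <;> intro h <;> linarith

lemma P_inj (a : ℕ) : ∀ b, P a = P b → a = b := by
  induction a using Nat.strong_induction_on with
  | _ a ih =>
    intro b h
    have h1 : ¬ P a < P b := by rw [h]; exact lt_irrefl _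
    have h2 : ¬ P b < P a := by rw [h]; exact lt_irrefl _
    rw [P_lt] at h1 h2
    have hc : cc a = cc b := by
      by_contra hne
      rcases Nat.lt_or_gt_of_ne hne with h3 | h3
      · exact h1 (Or.inl h3)
      · exact h2 (Or.inl h3)
    have hp : P (a / 2) = P (b / 2) := by
      by_contra hne
      rcases lt_or_gt_of_ne hne with h3 | h3
      · exact h1 (Or.inr ⟨hc, h3⟩)
      · exact h2 (Or.inr ⟨hc.symm, h3⟩)
    have hpar : a % 2 = b % 2 := by
      unfold cc at hc
      split_ifs at hc <;> omega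
    by_cases ha : a = 0
    · subst ha
      by_contra hb
      -- b ≠ 0, P b = 0, descend on b
      have key : ∀ m : ℕ, P m = 0 → m = 0 := by
        intro m
        induction m using Nat.strong_induction_on with
        | _ m ihm =>
          intro hm
          by_contra hm0
          have hb := P_bounds (m / 2)
          have h3 : (0 : ℚ) ≤ cc m := by positivity
          rw [P_eq] at hm
          have h4 : P (m / 2) = 0 := by linarith [hb.1]
          have h5 : (cc m : ℚ) = 0 := by linarith [hb.1]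
          have h6 : cc m = 0 := by exact_mod_cast h5
          have h7 := ihm (m / 2) (by omega) h4
          unfold cc at h6
          split_ifs at h6
          omega
      have h0 : P 0 = 0 := by rw [P]; simp
      exact hb (key b (by rw [← h, h0])).symm
    · have := ih (a / 2) (by omega) (b / 2) hp
      omega

lemma P_up (n : ℕ) : P n < P (n + 1) ↔ n % 4 < 2 := by
  rw [P_lt]
  have hne : cc n ≠ cc (n + 1) := by
    unfold cc
    split_ifs <;> omega
  have h2 : cc n < cc (n + 1) ↔ n % 4 < 2 := by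
    unfold cc
    split_ifs <;> omega
  simp [hne, h2]

lemma P_odd (x y : ℕ) : P (2 * x + 1) < P (2 * y + 1) ↔ P x < P y := by
  rw [P_lt]
  have h1 : cc (2 * x + 1) = 1 := by unfold cc; rw [if_pos (by omega)]
  have h2 : cc (2 * y + 1) = 1 := by unfold cc; rw [if_pos (by omega)]
  have h3 : (2 * x + 1) / 2 = x := by omega
  have h4 : (2 * y + 1) / 2 = y := by omega
  rw [h1, h2, h3, h4]
  simp

theorem P_cubefree (l : ℕ) : 2 ≤ l → ∀ s, ¬ Pw 3 P s l := by
  induction l using Nat.strong_induction_on with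
  | _ l ih =>
    intro hl s h
    have h01 := h 0 (by omega) 1 (by omega) 0 (by omega) 1 (by omega)
    have h02 := h 0 (by omega) 2 (by omega) 0 (by omega) 1 (by omega)
    simp only [zero_mul, add_zero, one_mul] at h01 h02
    rw [P_up, P_up] at h01 h02
    have hl4 : l % 4 = 0 := by omega
    obtain ⟨l', rfl⟩ : ∃ l', l = 2 * l' := ⟨l / 2, by omega⟩
    obtain ⟨e, s', he, hs⟩ : ∃ e s', e ≤ 1 ∧ s + e = 2 * s' + 1 :=
      ⟨1 - s % 2, s / 2, by omega, by omega⟩
    apply ih l' (by omega) (by omega) s'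
    intro r hr r' hr' i hi j hj
    have h1 := h r hr r' hr' (e + 2 * i) (by omega) (e + 2 * j) (by omega)
    have e1 : ∀ r i, s + r * (2 * l') + (e + 2 * i) = 2 * (s' + r * l' + i) + 1 := by
      intro r i
      have : r * (2 * l') = 2 * (r * l') := by ring
      omega
    rw [e1, e1, e1, e1, P_odd, P_odd] at h1
    exact h1

lemma Pw_mono {α : Type} [LT α] {k k' : ℕ} (hk : k' ≤ k) {f : ℕ → α} {s l : ℕ}
    (h : Pw k f s l) : Pw k' f s l :=
  fun r hr r' hr' i hi j hj => h r (by omega) r' (by omega) i hi j hj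

end Pool.Agent.Lib.MP_8f6629_co
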