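import Pool.Agent.Lib.MP_8f6629_co.Seq

namespace Pool.Agent.Lib.MP_8f6629_co

lemma Pw_of_rank {k s l : ℕ} {W : ℕ → ℕ} (ρ : ℕ → ℕ)
    (h : ∀ r < k, ∀ i < l, ∀ j < l, ρ i < ρ j → W (s + r * l + i) < W (s + r * l + j))
    (hinj : ∀ i < l, ∀ j < l, ρ i = ρ j → i = j) : Pw k W s l := by
  have key : ∀ r < k, ∀ i < l, ∀ j < l, (W (s + r * l + i) < W (s + r * l + j) ↔ ρ i < ρ j) := by
    intro r hr i hi j hj
    refine ⟨fun h1 => ?_, h r hr i hi j hj⟩
    rcases lt_trichotomy (ρ i) (ρ j) with h2 | h2 | h2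
    · exact h2
    · have := hinj i hi j hj h2
      subst this
      exact absurd h1 (lt_irrefl _)
    · exact absurd (h r hr j hj i hi h2) (not_lt.2 h1.le)
  intro r hr r' hr' i hi j hj
  rw [key r hr i hi j hj, key r' hr' i hi j hj]

lemma Pw_two {k s : ℕ} {W : ℕ → ℕ} (h : ∀ r < k, W (s + r * 2) < W (s + r * 2 + 1)) :
    Pw k W s 2 := by
  apply Pw_of_rank (fun i => i)
  · intro r hr i hi j hj hij
    have hi0 : i = 0 := by omega
    have hj1 : j = 1 := by omega
    subst hi0 hj1
    exact h r hr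
  · intro i _ j _ h; exact h

theorem right_ext (c u : ℕ) (W : ℕ → ℕ) (n : ℕ) (hn : n = (2 * c + 6) * (2 * c + 7 + 2 * u) + 1)
    (hW : ∀ i < n, ∀ j < n, (W i < W j ↔ V c u i < V c u j)) (hne : W n ≠ W (n - 1)) :
    ∃ s l, 2 ≤ l ∧ s + (c + 3) * l ≤ n + 1 ∧ Pw (c + 3) W s l := by
  have hn' : n = (2 * c + 6) * (2 * c + 6 + 2 * u) + (2 * c + 7) := by rw [hn]; ring
  rcases lt_or_gt_of_ne hne with hlt | hlt
  · -- new entry below the last one
    have hn2 : n = (2 * c + 6) * (c + 4 + 2 * u) + 2 + (c + 2) * (2 * c + 6) + (2 * c + 5) := by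
      rw [hn]; ring
    refine ⟨(2 * c + 6) * (c + 4 + 2 * u) + 2, 2 * c + 6, by omega, by rw [hn]; nlinarith, ?_⟩
    set s := (2 * c + 6) * (c + 4 + 2 * u) + 2 with hs
    let ρ : ℕ → ℕ := fun i => if i = 2 * c + 5 then 0 else if i = 2 * c + 4 then 2 else 4 * (i + 1)
    have hband : ∀ r < c + 3, ∀ i < 2 * c + 6, ∃ q t, t < 2 * c + 6 ∧
        s + r * (2 * c + 6) + i = (2 * c + 6) * q + t ∧ band c u q t = ρ i := by
      intro r hr i hi
      by_cases h1 : i = 2 * c + 5
      · refine ⟨c + 5 + 2 * u + r, 1, by omega, by rw [hs, h1]; ring, ?_⟩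
        rw [band_one, if_neg (by omega)]; simp [ρ, h1]
      by_cases h2 : i = 2 * c + 4
      · refine ⟨c + 5 + 2 * u + r, 0, by omega, by rw [hs, h2]; ring, ?_⟩
        rw [band_zero, if_neg (by omega)]; simp [ρ, h2]
      refine ⟨c + 4 + 2 * u + r, i + 2, by omega, by rw [hs]; ring, ?_⟩
      by_cases h3 : i = 2 * c + 3
      · subst h3
        rw [show 2 * c + 3 + 2 = 2 * c + 5 by ring, band_top, if_neg (by omega)]
        simp only [ρ]; rw [if_neg h1, if_neg h2]; omega
      · rw [band_mid c u _ _ (by omega) (by omega)]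
        simp only [ρ]; rw [if_neg h1, if_neg h2]; omega
    have hold : ∀ r < c + 3, ∀ i < 2 * c + 6, ∀ j < 2 * c + 6, ρ i < ρ j →
        s + r * (2 * c + 6) + i < n → s + r * (2 * c + 6) + j < n →
        W (s + r * (2 * c + 6) + i) < W (s + r * (2 * c + 6) + j) := by
      intro r hr i hi j hj hij h1 h2
      obtain ⟨q, t, ht, e1, b1⟩ := hband r hr i hi
      obtain ⟨q', t', ht', e2, b2⟩ := hband r hr j hj
      rw [hW _ h1 _ h2, V_lt c u q t q' t' _ _ ht ht' e1 e2, b1, b2]
      exact Or.inl hij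
    apply Pw_of_rank ρ
    · intro r hr i hi j hj hij
      have hrl : r * (2 * c + 6) ≤ (c + 2) * (2 * c + 6) := Nat.mul_le_mul_right _ (by omega)
      have hj5 : j ≠ 2 * c + 5 := by
        intro h; simp [ρ, h] at hij
      by_cases hin : s + r * (2 * c + 6) + i < n
      · exact hold r hr i hi j hj hij hin (by omega)
      · have hi5 : i = 2 * c + 5 := by omega
        have hrr : r * (2 * c + 6) = (c + 2) * (2 * c + 6) := by omega
        have e1 : s + r * (2 * c + 6) + i = n := by omega
        have e2 : s + r * (2 * c + 6) + (2 * c + 4) = n - 1 := by omega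
        rw [e1]
        by_cases hj4 : j = 2 * c + 4
        · rw [hj4, e2]; exact hlt
        · have := hold r hr (2 * c + 4) (by omega) j hj
            (by simp only [ρ]; rw [if_neg (by omega), if_pos trivial, if_neg hj5, if_neg hj4]; omega)
            (by omega) (by omega)
          rw [e2] at this
          exact lt_trans hlt this
    · intro i hi j hj h
      simp only [ρ] at h
      split_ifs at h <;> omega
  · -- new entry above the last one
    refine ⟨(2 * c + 6) * (2 * c + 6 + 2 * u) + 2, 2, le_refl _, by omega, ?_⟩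
    apply Pw_two
    intro r hr
    by_cases h : r = c + 2
    · have e1 : (2 * c + 6) * (2 * c + 6 + 2 * u) + 2 + r * 2 = n - 1 := by omega
      rw [e1, show n - 1 + 1 = n by omega]
      exact hlt
    · rw [hW _ (by omega) _ (by omega),
        V_up c u (2 * c + 6 + 2 * u) (2 + r * 2) _ (by omega) (by ring)]
      omega

theorem left_ext (c u : ℕ) (W : ℕ → ℕ) (n : ℕ) (hn : n = (2 * c + 6) * (2 * c + 7 + 2 * u) + 1)
    (hW : ∀ i < n, ∀ j < n, (W (i + 1) < W (j + 1) ↔ V c u i < V c u j)) (hne : W 0 ≠ W 1) :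
    ∃ s l, 2 ≤ l ∧ s + (c + 3) * l ≤ n + 1 ∧ Pw (c + 3) W s l := by
  have hn2 : n = (c + 3) * (2 * c + 6) + (2 * c + 6) * (c + 4 + 2 * u) + 1 := by
    rw [hn]; ring
  rcases lt_or_gt_of_ne hne with hlt | hlt
  · -- new entry below the first one
    refine ⟨0, 2, le_refl _, by nlinarith, ?_⟩
    apply Pw_two
    intro r hr
    by_cases h : r = 0
    · subst h; simpa using hlt
    · obtain ⟨r', rfl⟩ : ∃ r', r = r' + 1 := ⟨r - 1, by omega⟩
      have e1 : 0 + (r' + 1) * 2 = (2 * r' + 1) + 1 := by ring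
      have hb : 2 * c + 6 < n := by nlinarith
      rw [e1, hW _ (by omega) _ (by omega), V_up c u 0 (2 * r' + 1) _ (by omega) (by ring)]
      omega
  · -- new entry above the first one
    refine ⟨0, 2 * c + 6, by omega, by omega, ?_⟩
    let ρ : ℕ → ℕ := fun i => if i = 0 then 8 * c + 16 else if i = 1 then 8 * c + 14 else 4 * (i - 2)
    have hband : ∀ r < c + 3, ∀ i < 2 * c + 6, 0 < r * (2 * c + 6) + i → ∃ q t, t < 2 * c + 6 ∧
        0 + r * (2 * c + 6) + i = ((2 * c + 6) * q + t) + 1 ∧ band c u q t = ρ i := by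
      intro r hr i hi hpos
      by_cases h1 : i = 0
      · obtain ⟨r', rfl⟩ : ∃ r', r = r' + 1 := by
          rcases r with _ | r
          · simp [h1] at hpos
          · exact ⟨r, rfl⟩
        refine ⟨r', 2 * c + 5, by omega, by rw [h1]; ring, ?_⟩
        rw [band_top, if_neg (by omega)]; simp [ρ, h1]
      by_cases h2 : i = 1
      · refine ⟨r, 0, by omega, by rw [h2]; ring, ?_⟩
        rw [band_zero, if_pos (by omega)]; simp [ρ, h2]
      obtain ⟨i', rfl⟩ : ∃ i', i = i' + 2 := ⟨i - 2, by omega⟩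
      refine ⟨r, i' + 1, by omega, by ring, ?_⟩
      by_cases h3 : i' = 0
      · subst h3
        rw [zero_add, band_one, if_neg (by omega)]
        simp [ρ]
      · rw [band_mid c u _ _ (by omega) (by omega)]
        simp only [ρ]; rw [if_neg h1, if_neg h2]; omega
    have hold : ∀ r < c + 3, ∀ i < 2 * c + 6, ∀ j < 2 * c + 6, ρ i < ρ j →
        0 < r * (2 * c + 6) + i → 0 < r * (2 * c + 6) + j →
        W (0 + r * (2 * c + 6) + i) < W (0 + r * (2 * c + 6) + j) := by
      intro r hr i hi j hj hij h1 h2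
      have hrl : r * (2 * c + 6) ≤ (c + 2) * (2 * c + 6) := Nat.mul_le_mul_right _ (by omega)
      have hq : (c + 3) * (2 * c + 6) = (c + 2) * (2 * c + 6) + (2 * c + 6) := by ring
      obtain ⟨q, t, ht, e1, b1⟩ := hband r hr i hi h1
      obtain ⟨q', t', ht', e2, b2⟩ := hband r hr j hj h2
      rw [e1, e2, hW _ (by omega) _ (by omega), V_lt c u q t q' t' _ _ ht ht' rfl rfl, b1, b2]
      exact Or.inl hij
    apply Pw_of_rank ρ
    · intro r hr i hi j hj hij
      have hi0 : i ≠ 0 := by
        intro h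
        simp only [ρ] at hij
        split_ifs at hij <;> omega
      by_cases hjp : 0 < r * (2 * c + 6) + j
      · exact hold r hr i hi j hj hij (by omega) hjp
      · have hj0 : j = 0 := by omega
        have hr0 : r * (2 * c + 6) = 0 := by omega
        have e1 : 0 + r * (2 * c + 6) + j = 0 := by omega
        have e2 : 0 + r * (2 * c + 6) + 1 = 1 := by omega
        rw [e1]
        by_cases hi1 : i = 1
        · rw [hi1, e2]; exact hlt
        · have := hold r hr i hi 1 (by omega)
            (by simp only [ρ]; rw [if_neg hi0, if_neg hi1, if_neg (by omega), if_pos trivial]; omega)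
            (by omega) (by omega)
          rw [e2] at this
          exact lt_trans this hlt
    · intro i hi j hj h
      simp only [ρ] at h
      split_ifs at h <;> omega

/-- standardisation of an injective sequence -/
theorem exists_perm (n : ℕ) (f : ℕ → ℚ) (hf : Function.Injective f) :
    ∃ σ : Equiv.Perm (Fin n), ∀ i j : Fin n, (σ i < σ j ↔ f i < f j) := by
  let g : Fin n → ℚ := fun i => f i
  have hg : Function.Injective g := fun a b h => Fin.ext (hf h)
  have hm : StrictMono (g ∘ Tuple.sort g) :=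
    (Tuple.monotone_sort g).strictMono_of_injective (hg.comp (Tuple.sort g).injective)
  refine ⟨(Tuple.sort g).symm, fun i j => ?_⟩
  rw [← hm.lt_iff_lt]
  simp [g]

end Pool.Agent.Lib.MP_8f6629_co
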