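import Pool.Agent.Lib.MP_8f6629_co.AL4

/-! From bicrucial permutations to integer sequences that are crucial at the left end. -/

namespace Pool.Agent.Lib.MP_8f6629_co.ML

/-- A new first entry in slot `t`. -/
def cons (t : ℤ) (f : ℕ → ℤ) (i : ℕ) : ℤ := if i = 0 then 2 * t else 2 * f (i - 1) + 1

/-- A power-free sequence of length `n` all of whose left extensions have a power. -/
structure Cru (k n : ℕ) (f : ℕ → ℤ) : Prop where
  inj : ∀ i < n, ∀ j < n, f i = f j → i = j
  free : ∀ s l, 2 ≤ l → s + k * l ≤ n → ¬ Pw k f s l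
  ext : ∀ t : ℤ, ∃ l, 2 ≤ l ∧ k * l ≤ n + 1 ∧ Pw k (cons t f) 0 l

theorem entry_lt {n : ℕ} (σ : Equiv.Perm (Fin n)) {i j : ℕ} (hi : i < n) (hj : j < n) :
    entry σ i < entry σ j ↔ σ ⟨i, hi⟩ < σ ⟨j, hj⟩ := by
  unfold entry
  rw [dif_pos hi, dif_pos hj]
  rfl

theorem exists_perm' (n : ℕ) (f : ℕ → ℤ) (hf : ∀ i < n, ∀ j < n, f i = f j → i = j) :
    ∃ σ : Equiv.Perm (Fin n), ∀ i < n, ∀ j < n, (entry σ i < entry σ j ↔ f i < f j) := by
  obtain ⟨σ, hσ⟩ := AL.exists_perm n (fun i => toLex (f i, i)) fun a b h =>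
    congrArg (fun p => (ofLex p).2) h
  refine ⟨σ, fun i hi j hj => ?_⟩
  rw [entry_lt σ hi hj, hσ, Prod.Lex.toLex_lt_toLex]
  refine ⟨?_, Or.inl⟩
  rintro (h | ⟨h, h'⟩)
  · exact h
  · have := hf i hi j hj h
    simp only at h'
    omega

section
variable {α β : Type} [LT α] [LT β] {f : ℕ → α} {g : ℕ → β} {k s s' l : ℕ}

theorem pw_congr (h : Pw k f s l)
    (e : ∀ i < k * l, ∀ j < k * l, (g (s' + i) < g (s' + j) ↔ f (s + i) < f (s + j))) :
    Pw k g s' l := fun r hr r' hr' i hi j hj => by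
  have p : ∀ {r i}, r < k → i < l → r * l + i < k * l := fun hr hi => by
    simpa using AL.pos_lt (s := 0) (by simp) hr hi
  simp only [add_assoc]
  rw [e _ (p hr hi) _ (p hr hj), e _ (p hr' hi) _ (p hr' hj)]
  simpa only [add_assoc] using h r hr r' hr' i hi j hj

theorem pw_rev (h : Pw k f s l) :
    Pw k (fun i => f (s + k * l - 1 - i)) 0 l := fun r hr r' hr' i hi j hj => by
  have p : ∀ {r i}, r < k → i < l →
      s + k * l - 1 - (0 + r * l + i) = s + (k - 1 - r) * l + (l - 1 - i) := fun {r i} hr hi => by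
    obtain ⟨q, rfl⟩ : ∃ q, k = r + 1 + q := ⟨k - 1 - r, by omega⟩
    have e1 : r + 1 + q - 1 - r = q := by omega
    have e2 : (r + 1 + q) * l = r * l + l + q * l := by ring
    rw [e1, e2]
    omega
  simp only [p hr hi, p hr hj, p hr' hi, p hr' hj]
  exact h _ (by omega) _ (by omega) _ (by omega) _ (by omega)

end

theorem cons_inj {n : ℕ} {f : ℕ → ℤ} (hf : ∀ i < n, ∀ j < n, f i = f j → i = j) (t : ℤ) :
    ∀ i < n + 1, ∀ j < n + 1, cons t f i = cons t f j → i = j := fun i hi j hj h => by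
  unfold cons at h
  split_ifs at h with h1 h2 h2
  · omega
  · omega
  · omega
  · have := hf (i - 1) (by omega) (j - 1) (by omega) (by omega)
    omega

theorem Cru.of {k n : ℕ} {f : ℕ → ℤ} (inj : ∀ i < n, ∀ j < n, f i = f j → i = j)
    (free : ∀ s l, 2 ≤ l → s + k * l ≤ n → ¬ Pw k f s l)
    (ext : ∀ t : ℤ, ∃ s l, 2 ≤ l ∧ s + k * l ≤ n + 1 ∧ Pw k (cons t f) s l) : Cru k n f := by
  refine ⟨inj, free, fun t => ?_⟩
  obtain ⟨s, l, hl, hb, h⟩ := ext t
  rcases s with _ | s
  · exact ⟨l, hl, by omega, h⟩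
  · refine (free s l hl (by omega) (pw_congr h fun i _ j _ => ?_)).elim
    unfold cons
    rw [if_neg (by omega), if_neg (by omega), show s + 1 + i - 1 = s + i by omega,
      show s + 1 + j - 1 = s + j by omega]
    omega

variable {k n : ℕ} {σ : Equiv.Perm (Fin n)}

theorem cru_left (h : Bicrucial k σ) : Cru k n fun i => (entry σ i : ℤ) := by
  have inj : ∀ i < n, ∀ j < n, (entry σ i : ℤ) = entry σ j → i = j := fun i hi j hj e =>
    AL.entry_inj σ i j hi hj (by omega)
  refine Cru.of inj (fun s l hl hb hp => h.1 ⟨s, l, hl, hb, pw_congr hp fun i _ j _ => ?_⟩)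
    fun t => ?_
  · simp
  · obtain ⟨τ, hτ⟩ := exists_perm' (n + 1) _ (cons_inj inj t)
    obtain ⟨s, l, hl, hb, hp⟩ := h.2.1 τ fun i j => by
      have := hτ (i + 1) (by omega) (j + 1) (by omega)
      rw [entry_lt τ (by omega) (by omega)] at this
      refine this.trans ?_
      rw [← entry_lt σ i.2 j.2]
      simp only [cons, Nat.add_one_ne_zero, if_false, Nat.add_sub_cancel]
      omega
    exact ⟨s, l, hl, hb, pw_congr (f := entry τ) hp fun i _ j _ =>
      (hτ _ (by omega) _ (by omega)).symm⟩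

theorem cru_right (h : Bicrucial k σ) : Cru k n fun i => (entry σ (n - 1 - i) : ℤ) := by
  have inj : ∀ i < n, ∀ j < n, (entry σ (n - 1 - i) : ℤ) = entry σ (n - 1 - j) → i = j :=
    fun i hi j hj e => by
      have := AL.entry_inj σ (n - 1 - i) (n - 1 - j) (by omega) (by omega) (by omega)
      omega
  refine Cru.of inj (fun s l hl hb hp => h.1 ⟨n - s - k * l, l, hl, by omega,
    pw_congr (pw_rev hp) fun i _ j _ => ?_⟩) fun t => ?_
  · rw [show n - 1 - (s + k * l - 1 - (0 + i)) = n - s - k * l + i by omega,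
      show n - 1 - (s + k * l - 1 - (0 + j)) = n - s - k * l + j by omega]
    simp
  · obtain ⟨τ, hτ⟩ := exists_perm' (n + 1)
      (fun i => cons t (fun i => (entry σ (n - 1 - i) : ℤ)) (n - i)) fun i hi j hj e => by
        have := cons_inj inj t _ (by omega) _ (by omega) e
        omega
    obtain ⟨s, l, hl, hb, hp⟩ := h.2.2 τ fun i j => by
      have := hτ i (by omega) j (by omega)
      rw [entry_lt τ (by omega) (by omega)] at this
      refine this.trans ?_
      rw [← entry_lt σ i.2 j.2]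
      unfold cons
      rw [if_neg (by omega), if_neg (by omega)]
      simp only [show n - 1 - (n - i - 1) = i by omega, show n - 1 - (n - j - 1) = j by omega]
      omega
    refine ⟨n + 1 - s - k * l, l, hl, by omega, pw_congr (pw_rev (f := entry τ) hp)
      fun i _ j _ => ?_⟩
    rw [hτ _ (by omega) _ (by omega),
      show n - (s + k * l - 1 - (0 + i)) = n + 1 - s - k * l + i by omega,
      show n - (s + k * l - 1 - (0 + j)) = n + 1 - s - k * l + j by omega]

end Pool.Agent.Lib.MP_8f6629_co.ML
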