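import Pool.Agent.Lib.MP_8f6629_co.ML1

/-! The up-down word at a crucial end. -/

namespace Pool.Agent.Lib.MP_8f6629_co.ML

/-- The letter with index `t ≥ 2`. -/
def lett (f : ℕ → ℤ) (t : ℕ) : Bool := decide (f (t - 2) < f (t - 1))

/-- `l` is a period of the word when the new letter is `c`. -/
structure Per (k n : ℕ) (x : ℕ → Bool) (l : ℕ) (c : Bool) : Prop where
  lo : 2 ≤ l
  hi : k * l ≤ n + 1
  hd : ∀ r, 1 ≤ r → r < k → x (1 + r * l) = c
  mv : ∀ t, 2 ≤ t → ¬ l ∣ t → t + l < k * l → x (t + l) = x t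

/-- What the word of a crucial end satisfies. -/
structure End (k n : ℕ) (x : ℕ → Bool) : Prop where
  free : ∀ t, 2 ≤ t → t + 2 * k ≤ n + 2 → ¬ ∀ r < k, x (t + r * 2) = x t
  one : ∀ c, ∃ l, Per k n x l c
  two : ∀ c, x 2 = !c → Per k n x 2 c ∨ ∃ l l', Per k n x l c ∧ Per k n x l' c ∧
    ∀ r r', 1 ≤ r → r < k → 1 ≤ r' → r' < k → r * l ≠ r' * l'

theorem pw_two {α : Type} [Preorder α] {f : ℕ → α} {k s : ℕ} {p : Prop}
    (h : ∀ r < k, (f (s + r * 2) < f (s + r * 2 + 1) ↔ p) ∧
      (f (s + r * 2 + 1) < f (s + r * 2) ↔ ¬ p)) : Pw k f s 2 := fun r hr r' hr' i hi j hj => by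
  have h1 := h r hr
  have h2 := h r' hr'
  interval_cases i <;> interval_cases j <;> simp [h1, h2]

variable {k n l : ℕ} {f : ℕ → ℤ} {t : ℤ}

theorem cons_pos (t : ℤ) (f : ℕ → ℤ) {i : ℕ} (hi : 1 ≤ i) : cons t f i = 2 * f (i - 1) + 1 :=
  if_neg (by omega)

theorem per_of (hl : 2 ≤ l) (hb : k * l ≤ n + 1) (h : Pw k (cons t f) 0 l) :
    Per k n (lett f) l (decide (t ≤ f 0)) := by
  refine ⟨hl, hb, fun r h1 hr => ?_, fun u hu hd hlt => ?_⟩
  · have := h 0 (by omega) r hr 0 (by omega) 1 (by omega)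
    have h2 : 2 ≤ r * l := by nlinarith
    rw [cons_pos t f (i := 0 + r * l + 0) (by omega), cons_pos t f (i := 0 + r * l + 1) (by omega),
      show 0 + r * l + 0 - 1 = 1 + r * l - 2 by omega,
      show 0 + r * l + 1 - 1 = 1 + r * l - 1 by omega] at this
    simp only [cons, zero_mul, add_zero, if_true, zero_add, one_ne_zero, if_false,
      Nat.sub_self] at this
    unfold lett
    rw [decide_eq_decide]
    omega
  · have e := Nat.div_add_mod' u l
    have h1 := Nat.mod_lt u (show 0 < l by omega)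
    have h2 : u % l ≠ 0 := fun h => hd (Nat.dvd_of_mod_eq_zero h)
    have e' : (u / l + 1) * l = u / l * l + l := by ring
    have h3 : u / l + 1 < k := lt_of_mul_lt_mul_right (a := l) (by omega) (by omega)
    have := h (u / l) (by omega) (u / l + 1) h3 (u % l - 1) (by omega) (u % l) h1
    rw [cons_pos t f (by omega), cons_pos t f (by omega), cons_pos t f (by omega),
      cons_pos t f (by omega), show 0 + u / l * l + (u % l - 1) - 1 = u - 2 by omega,
      show 0 + u / l * l + u % l - 1 = u - 1 by omega,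
      show 0 + (u / l + 1) * l + (u % l - 1) - 1 = u + l - 2 by omega,
      show 0 + (u / l + 1) * l + u % l - 1 = u + l - 1 by omega] at this
    unfold lett
    rw [decide_eq_decide]
    omega

theorem slot (h : Pw k (cons t f) 0 l) {r i : ℕ} (h1 : 1 ≤ r) (hr : r < k) (hi : i + 1 < l) :
    t ≤ f i ↔ f (r * l - 1) < f (r * l + i) := by
  have := h 0 (by omega) r hr 0 (by omega) (i + 1) hi
  have h2 : 1 ≤ r * l := by nlinarith
  rw [cons_pos t f (i := 0 + r * l + 0) (by omega),
    cons_pos t f (i := 0 + r * l + (i + 1)) (by omega),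
    show 0 + r * l + 0 - 1 = r * l - 1 by omega,
    show 0 + r * l + (i + 1) - 1 = r * l + i by omega] at this
  simp only [cons, zero_mul, add_zero, if_true, zero_add, Nat.add_one_ne_zero, if_false,
    Nat.add_sub_cancel] at this
  omega

theorem Cru.word (H : Cru k n f) (hn : 2 ≤ n) : End k n (lett f) := by
  have key : ∀ t t' c, decide (t ≤ f 0) = c → decide (t' ≤ f 0) = c → t ≤ f 1 → ¬ t' ≤ f 1 →
      Per k n (lett f) 2 c ∨ ∃ l l', Per k n (lett f) l c ∧ Per k n (lett f) l' c ∧
        ∀ r r', 1 ≤ r → r < k → 1 ≤ r' → r' < k → r * l ≠ r' * l' := by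
    intro t t' c e e' h1 h2
    obtain ⟨l, hl, hb, hp⟩ := H.ext t
    obtain ⟨l', hl', hb', hp'⟩ := H.ext t'
    have p := e ▸ per_of hl hb hp
    have p' := e' ▸ per_of hl' hb' hp'
    rcases hl.eq_or_lt with rfl | hl
    · exact Or.inl p
    rcases hl'.eq_or_lt with rfl | hl'
    · exact Or.inl p'
    refine Or.inr ⟨l, l', p, p', fun r r' a b a' b' h => h2 ?_⟩
    rw [slot hp' a' b' hl', ← h, ← slot hp a b hl]
    exact h1
  refine ⟨fun t ht hb h => H.free (t - 2) 2 le_rfl (by omega)
    (pw_two (p := lett f t = true) fun r hr => ?_), fun c => ?_, fun c hc => ?_⟩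
  · have h1 := h r hr
    have h2 := H.inj (t - 2 + r * 2) (by omega) (t - 2 + r * 2 + 1) (by omega)
    rw [← h1]
    unfold lett
    rw [decide_eq_true_iff, show t + r * 2 - 2 = t - 2 + r * 2 by omega,
      show t + r * 2 - 1 = t - 2 + r * 2 + 1 by omega]
    omega
  · obtain ⟨l, hl, hb, hp⟩ := H.ext (if c then f 0 else f 0 + 1)
    refine ⟨l, ?_⟩
    convert per_of hl hb hp using 1
    cases c <;> simp
  · have h2 := H.inj 0 (by omega) 1 (by omega)
    cases c
    · have : f 0 < f 1 := by simpa [lett] using hc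
      exact key (f 0 + 1) (f 1 + 1) _ (by simp) (by simp; omega) (by omega) (by omega)
    · have : f 1 ≤ f 0 := by simpa [lett] using hc
      exact key (f 1) (f 0) _ (by simpa) (by simp) le_rfl (by omega)

variable {x : ℕ → Bool} {a b b' : ℕ} {c : Bool}

theorem Per.clash (ha : Per k n x a c) (hb : Per k n x b (!c)) {r s : ℕ} (h1 : 1 ≤ r) (hr : r < k)
    (h2 : 1 ≤ s) (hs : s < k) : r * a ≠ s * b := fun e => by
  have p := ha.hd r h1 hr
  rw [e, hb.hd s h2 hs] at p
  simp at p

theorem Per.big (ha : Per k n x a c) (hb : Per k n x b (!c)) (hab : a < b) : k ≤ b := by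
  by_contra h
  have := ha.lo
  exact ha.clash hb (r := b) (s := a) (by omega) (by omega) (by omega) (by omega) (mul_comm _ _)

theorem Per.mv' (ha : Per k n x a c) {t u : ℕ} (e : u = t + a) (ht : 2 ≤ t) (hd : ¬ a ∣ t)
    (hu : u < k * a) : x u = x t := e ▸ ha.mv t ht hd (e ▸ hu)

theorem nd {a t : ℕ} (q : ℕ) (h1 : q * a < t) (h2 : t < q * a + a) : ¬ a ∣ t := by
  rintro ⟨r, rfl⟩
  have h3 : q < r := by nlinarith
  nlinarith

theorem pair (hk : 3 ≤ k) (E : End k n x) (ha : Per k n x a c) (hb : Per k n x b (!c))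
    (h3 : 3 ≤ a) (hab : a < b) (hb2 : b + 1 ≤ 2 * k) : a ∣ b + 1 ∧ x 2 = c := by
  have a1 := ha.hd 1 le_rfl (by omega)
  have b1 := hb.hd 1 le_rfl (by omega)
  have kb : 3 * b ≤ k * b := Nat.mul_le_mul_right _ hk
  have hd : a ∣ b + 1 := by
    by_contra hd
    by_cases e : b = a + 1
    · subst e
      have a2 := ha.hd 2 (by omega) (by omega)
      rcases hk.eq_or_lt with rfl | hk4
      · refine E.free 6 (by omega) (by have := hb.hi; omega) fun r hr => ?_
        have m := ha.mv
        have m' := hb.mv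
        have : a = 3 ∨ a = 4 := by omega
        rcases this with rfl | rfl
        · have p1 := m 2 (by omega) (by omega) (by omega)
          have p2 := m 5 (by omega) (by omega) (by omega)
          have p3 := m' 2 (by omega) (by omega) (by omega)
          have p4 := m' 6 (by omega) (by omega) (by omega)
          interval_cases r <;> simp_all
        · have b2 := hb.hd 2 (by omega) (by omega)
          have p1 := m 6 (by omega) (by omega) (by omega)
          have p2 := m 7 (by omega) (by omega) (by omega)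
          have p3 := m 3 (by omega) (by omega) (by omega)
          have p4 := m' 3 (by omega) (by omega) (by omega)
          interval_cases r <;> simp_all
      · have ka : 4 * a ≤ k * a := Nat.mul_le_mul_right _ hk4
        have p1 := hb.mv' (t := 1 + 2 * a) (u := 3 * a + 2) (by omega) (by omega)
          (nd 1 (by omega) (by omega)) (by omega)
        have p2 := ha.mv' (t := 1 + 1 * (a + 1)) (u := 2 * a + 2) (by omega) (by omega)
          (nd 1 (by omega) (by omega)) (by omega)
        have p3 := ha.mv' (t := 2 * a + 2) (u := 3 * a + 2) (by omega) (by omega)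
          (nd 2 (by omega) (by omega)) (by omega)
        rw [p3, p2, a2, b1] at p1
        simp at p1
    · have ka : 1 + a + b < k * a := by
        rcases hk.eq_or_lt with rfl | hk4
        · obtain ⟨rfl, rfl⟩ : a = 3 ∧ b = 5 := by omega
          exact (hd (by norm_num)).elim
        · nlinarith
      have p1 := hb.mv' (t := 1 + 1 * a) (u := 1 + a + b) (by omega) (by omega)
        (nd 0 (by omega) (by omega)) (by omega)
      have p2 := ha.mv' (t := 1 + 1 * b) (u := 1 + a + b) (by omega) (by omega)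
        (by rwa [one_mul, add_comm]) ka
      rw [p2, a1, b1] at p1
      simp at p1
  refine ⟨hd, ?_⟩
  obtain ⟨s, hs⟩ := hd
  have h1 : 1 ≤ s := by nlinarith
  have p1 := ha.hd s h1 (by nlinarith)
  rw [← p1]
  exact (hb.mv' (by rw [mul_comm]; omega) le_rfl (nd 0 (by omega) (by omega))
    (by rw [mul_comm]; omega)).symm

theorem twin (hk : 3 ≤ k) (ha : Per k n x a c) (hb : Per k n x b (!c)) (hb' : Per k n x b' (!c))
    (hlt : b < b') (hd : a ∣ b' - b) (hb2 : b' + 1 ≤ 2 * k) (hkb : k ≤ b) : b' + 1 = 2 * b := by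
  by_contra h
  obtain ⟨j, hj⟩ := hd
  have := ha.lo
  have h1 : 1 ≤ j := Nat.pos_of_ne_zero (by rintro rfl; omega)
  have h2 : j ≤ a * j := Nat.le_mul_of_pos_left _ (by omega)
  have kb : 3 * b ≤ k * b := Nat.mul_le_mul_right _ hk
  have p1 := ha.hd j h1 (by omega)
  have p2 := hb'.hd 1 le_rfl (by omega)
  rw [mul_comm] at p1
  rw [hb.mv' (t := 1 + a * j) (by omega) (by omega) (nd 0 (by omega) (by omega)) (by omega),
    p1] at p2
  simp at p2

theorem End.two' (hk : 3 ≤ k) (E : End k n x) (h : x 2 = c) (h2 : ¬ Per k n x 2 (!c)) :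
    ∃ b b', b < b' ∧ Per k n x b (!c) ∧ Per k n x b' (!c) := by
  obtain ⟨l, l', p, p', hne⟩ := (E.two (!c) (by simpa)).resolve_left h2
  have := hne 1 1 le_rfl (by omega) le_rfl (by omega)
  rcases lt_trichotomy l l' with h | h | h
  · exact ⟨l, l', h, p, p'⟩
  · omega
  · exact ⟨l', l, h, p', p⟩

theorem End.gadget {m : ℕ} (hk : 3 ≤ k) (hm : m + 1 = 2 * k) (E : End k n x) (hn : n ≤ k * m) :
    ∃ c, Per k n x 2 c ∧ Per k n x m (!c) := by
  have bd : ∀ {l c}, Per k n x l c → l + 1 ≤ 2 * k := fun {l c} h => by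
    have := h.hi
    by_contra
    have : k * (m + 1) ≤ k * l := Nat.mul_le_mul_left _ (by omega)
    nlinarith
  obtain ⟨c, ha⟩ : ∃ c, Per k n x 2 c := by
    by_contra! h
    have lo : ∀ {l c}, Per k n x l c → 3 ≤ l := fun {l c} p =>
      p.lo.lt_of_ne (by rintro rfl; exact h _ p)
    obtain ⟨a, ha⟩ := E.one (x 2)
    obtain ⟨b, b', hlt, hb, hb'⟩ := E.two' hk rfl (h _)
    have key : ∀ {b}, Per k n x b (!x 2) → a ∣ b + 1 ∧ k ≤ b := fun {b} hb => by
      rcases lt_trichotomy a b with h | h | h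
      · exact ⟨(pair hk E ha hb (lo ha) h (bd hb)).1, ha.big hb h⟩
      · exact (ha.clash hb le_rfl (by omega) le_rfl (by omega) (by omega)).elim
      · simpa using (pair hk E hb (by simpa using ha) (lo hb) h (bd ha)).2
    have d := Nat.dvd_sub (key hb').1 (key hb).1
    have e := twin hk ha hb hb' hlt (by simpa using d) (bd hb') (key hb).2
    have d2 := Nat.dvd_sub ((key hb).1.mul_left 2) (key hb').1
    rw [show 2 * (b + 1) - (b' + 1) = 2 by omega] at d2
    have := Nat.le_of_dvd (by omega) d2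
    have := lo ha
    omega
  have odd : ∀ {b}, Per k n x b (!c) → b % 2 = 1 ∧ k ≤ b := fun {b} hb => by
    have h1 := bd hb
    have h2 := hb.lo
    have h3 := ha.clash hb (r := b / 2) (s := 1) (by omega) (by omega) le_rfl (by omega)
    exact ⟨by omega, ha.big hb (by omega)⟩
  refine ⟨c, ha, ?_⟩
  obtain ⟨b, hb⟩ := E.one (!c)
  by_cases e : b = m
  · exact e ▸ hb
  have h1 := bd hb
  have h2 := odd hb
  have kb : 3 * b ≤ k * b := Nat.mul_le_mul_right _ hk
  have p := ha.hd ((b + 1) / 2) (by omega) (by omega)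
  rw [hb.mv' (t := 2) (by omega) le_rfl (nd 0 (by omega) (by omega)) (by omega)] at p
  obtain ⟨b, b', hlt, hb, hb'⟩ := E.two' hk p fun h => by have := (odd h).1; omega
  have h3 := odd hb
  have h4 := odd hb'
  have h5 := bd hb'
  have := twin hk ha hb hb' hlt (by omega) h5 h3.2
  exact (show b' = m by omega) ▸ hb'

theorem Per.iter (ha : Per k n x a c) {i : ℕ} (h2 : 2 ≤ i) (hi : i < a) :
    ∀ r < k, x (r * a + i) = x i
  | 0, _ => by simp
  | r + 1, hr => by
    have : (r + 2) * a ≤ k * a := Nat.mul_le_mul_right _ hr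
    rw [ha.mv' (t := r * a + i) (by ring) (by omega) (nd r (by omega) (by omega)) (by nlinarith)]
    exact ha.iter h2 hi r (by omega)

theorem lower {y : ℕ → Bool} {m : ℕ} (hk : 3 ≤ k) (hm : m + 1 = 2 * k) (E : End k n x)
    (E' : End k n y) (h : ∀ t u, 2 ≤ t → 2 ≤ u → t + u = n + 2 → y t = !x u) : k * m < n := by
  by_contra! hn
  obtain ⟨c, ha, hb⟩ := E.gadget hk hm hn
  obtain ⟨e, ha', hb'⟩ := E'.gadget hk hm hn
  obtain ⟨q, rfl⟩ : ∃ q, k = q + 1 := ⟨k - 1, by omega⟩
  have hi := hb.hi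
  have em : (q + 1) * m = q * m + m := by ring
  have qm : 2 * m ≤ q * m := Nat.mul_le_mul_right _ (by omega)
  have p1 := hb'.hd q (by omega) (by omega)
  rcases (show n + 1 = q * m + m ∨ n = q * m + m by omega) with e1 | e1
  · rw [h _ (1 + q * 2) (by omega) (by omega) (by omega), ha.hd q (by omega) (by omega)] at p1
    have p2 := ha'.hd 1 le_rfl (by omega)
    rw [h _ (q * m + (1 + (q - 1) * 2)) (by omega) (by omega) (by omega),
      hb.iter (by omega) (by omega) q (by omega), ha.hd _ (by omega) (by omega)] at p2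
    cases c <;> cases e <;> simp at p1 p2
  · rw [h _ (1 + 1 * m) (by omega) (by omega) (by omega), hb.hd 1 le_rfl (by omega)] at p1
    have p2 := ha'.hd q (by omega) (by omega)
    rw [h _ (q * m + 2) (by omega) (by omega) (by omega),
      hb.iter (by omega) (by omega) q (by omega)] at p2
    have p3 : x 2 = c := by cases c <;> cases e <;> simp_all
    refine E.free 3 (by omega) (by omega) fun r hr => ?_
    rw [ha.hd 1 le_rfl (by omega)]
    by_cases e2 : r = q
    · rw [show 3 + r * 2 = 1 * m + 2 by omega, hb.iter le_rfl (by omega) 1 (by omega), p3]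
    · rw [show 3 + r * 2 = 1 + (r + 1) * 2 by omega, ha.hd _ (by omega) (by omega)]

theorem lett_rev (H : Cru k n f) (t u : ℕ) (ht : 2 ≤ t) (hu : 2 ≤ u) (e : t + u = n + 2) :
    lett (fun i => f (n - 1 - i)) t = !lett f u := by
  have := H.inj (u - 2) (by omega) (u - 1) (by omega)
  unfold lett
  simp only [show n - 1 - (t - 2) = u - 1 by omega, show n - 1 - (t - 1) = u - 2 by omega]
  rw [← decide_not, decide_eq_decide]
  omega

theorem two_le {σ : Equiv.Perm (Fin n)} (hk : 3 ≤ k) (h : Bicrucial k σ) : 2 ≤ n := by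
  obtain ⟨l, hl, hb, -⟩ := (cru_left h).ext 0
  nlinarith

theorem length_ge {σ : Equiv.Perm (Fin n)} (hk : 3 ≤ k) (h : Bicrucial k σ) :
    2 * k ^ 2 + 1 ≤ n + k := by
  obtain ⟨m, hm⟩ : ∃ m, m + 1 = 2 * k := ⟨2 * k - 1, by omega⟩
  have := lower hk hm ((cru_left h).word (two_le hk h)) ((cru_right h).word (two_le hk h))
    (lett_rev (cru_left h))
  nlinarith

end Pool.Agent.Lib.MP_8f6629_co.ML
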