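import Pool.Agent.Lib.MP_8f6629_co.ML2

/-! The shortest bicrucial permutations. -/

namespace Pool.Agent.Lib.MP_8f6629_co.ML

/-- Blocks of length `m`: the least entry, then a descending run. -/
def base (m i : ℕ) : ℕ := i / m * m + if i % m = 0 then 0 else m - i % m

/-- The same with two pairs of values exchanged. -/
def sh (m i : ℕ) : ℕ :=
  if i = 0 then 1 else if i + 1 = m then 0 else if i = 1 then m else if i = m then m - 1
  else base m i

variable {k m : ℕ}

theorem sh_eq (q r i : ℕ) (hm : 5 ≤ m) (hr : r < m) (e : i = q * m + r) :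
    (i = 0 ∧ sh m i = 1) ∨ (i + 1 = m ∧ sh m i = 0) ∨ (i = 1 ∧ sh m i = m) ∨
      (i = m ∧ sh m i + 1 = m) ∨ (i ≠ 0 ∧ i + 1 ≠ m ∧ i ≠ 1 ∧ i ≠ m ∧
        ((r = 0 ∧ sh m i = q * m) ∨ (r ≠ 0 ∧ sh m i + r = q * m + m))) := by
  have e1 : i / m = q := by
    rw [e, add_comm, Nat.add_mul_div_right _ _ (by omega), Nat.div_eq_of_lt hr, zero_add]
  have e2 : i % m = r := by rw [e, add_comm, Nat.add_mul_mod_self_right, Nat.mod_eq_of_lt hr]
  unfold sh base
  rw [e1, e2]
  split_ifs <;> omega

theorem mul_cases (q m : ℕ) : q * m = 0 ∨ q * m = m ∨ 2 * m ≤ q * m := by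
  rcases q with _ | _ | q
  · simp
  · simp
  · exact Or.inr (Or.inr (Nat.mul_le_mul_right _ (by omega)))

theorem sh_inj (hm : 5 ≤ m) : Function.Injective (sh m) := fun i j h => by
  have a := Nat.mod_lt i (show 0 < m by omega)
  have b := Nat.mod_lt j (show 0 < m by omega)
  have e := (Nat.div_add_mod' i m).symm
  have e' := (Nat.div_add_mod' j m).symm
  have h1 := sh_eq _ _ _ hm a e
  have h2 := sh_eq _ _ _ hm b e'
  have c := mul_cases (i / m) m
  have d := mul_cases (j / m) m
  have : i / m * m = j / m * m ∨ i / m * m + m ≤ j / m * m ∨ j / m * m + m ≤ i / m * m := by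
    rcases lt_trichotomy (i / m) (j / m) with h | h | h
    · exact Or.inr (Or.inl (by nlinarith))
    · exact Or.inl (by rw [h])
    · exact Or.inr (Or.inr (by nlinarith))
  omega

theorem sh_up {q r : ℕ} (hm : 5 ≤ m) (hr : r < m) :
    sh m (q * m + r) < sh m (q * m + r + 1) ↔ r = 0 ∨ r + 1 = m := by
  have c := mul_cases q m
  have e : (q + 1) * m = q * m + m := by ring
  have h1 := sh_eq q r _ hm hr rfl
  by_cases h : r + 1 = m
  · have := sh_eq (q + 1) 0 (q * m + r + 1) hm (by omega) (by omega)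
    omega
  · have := sh_eq q (r + 1) (q * m + r + 1) hm (by omega) (by omega)
    omega

theorem sh_free (hk : 3 ≤ k) (hm : m + 1 = 2 * k) (s l : ℕ) (hl : 2 ≤ l)
    (hb : s + k * l ≤ k * m + 1) : ¬ Pw k (sh m) s l := fun h => by
  have h5 : 5 ≤ m := by omega
  have hlm : l ≤ m := by
    by_contra
    have : k * (m + 1) ≤ k * l := Nat.mul_le_mul_left _ (by omega)
    nlinarith
  rcases hlm.eq_or_lt with rfl | hlm
  · have := h 0 (by omega) 1 (by omega) 0 (by omega) (l - 1) (by omega)
    rcases (show s = 0 ∨ s = 1 by omega) with rfl | rfl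
    · have h1 := sh_eq 0 0 (0 + 0 * l + 0) h5 (by omega) (by omega)
      have h2 := sh_eq 0 (l - 1) (0 + 0 * l + (l - 1)) h5 (by omega) (by omega)
      have h3 := sh_eq 1 0 (0 + 1 * l + 0) h5 (by omega) (by omega)
      have h4 := sh_eq 1 (l - 1) (0 + 1 * l + (l - 1)) h5 (by omega) (by omega)
      omega
    · have h1 := sh_eq 0 1 (1 + 0 * l + 0) h5 (by omega) (by omega)
      have h2 := sh_eq 1 0 (1 + 0 * l + (l - 1)) h5 (by omega) (by omega)
      have h3 := sh_eq 1 1 (1 + 1 * l + 0) h5 (by omega) (by omega)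
      have h4 := sh_eq 2 0 (1 + 1 * l + (l - 1)) h5 (by omega) (by omega)
      omega
  have key : ∀ r < k, ∀ i, i + 1 < l → ¬ sh m (s + r * l + i) < sh m (s + r * l + i + 1) := by
    intro r hr i hi hu
    have u : ∀ r' < k, sh m (s + r' * l + i) < sh m (s + r' * l + i + 1) := fun r' hr' =>
      (h r hr r' hr' i (by omega) (i + 1) hi).1 hu
    have u0 := u 0 (by omega)
    have u1 := u 1 (by omega)
    have u2 := u 2 (by omega)
    have a := Nat.mod_lt (s + i) (show 0 < m by omega)
    have e := Nat.div_add_mod' (s + i) m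
    generalize (s + i) / m = q, (s + i) % m = t at a e
    have e' : (q + 1) * m = q * m + m := by ring
    rw [show s + 0 * l + i = q * m + t by omega, sh_up h5 a] at u0
    rcases u0 with u0 | u0
    · rw [show s + 1 * l + i = q * m + l by omega, sh_up h5 hlm] at u1
      rw [show s + 2 * l + i = (q + 1) * m + (m - 2) by omega, sh_up h5 (by omega)] at u2
      omega
    · rw [show s + 1 * l + i = (q + 1) * m + (l - 1) by omega, sh_up h5 (by omega)] at u1
      omega
  have a := Nat.mod_lt s (show 0 < m by omega)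
  have e := Nat.div_add_mod' s m
  generalize s / m = q, s % m = t at a e
  have a' := Nat.mod_lt (m - 1 - t) (show 0 < l by omega)
  have e' := Nat.div_add_mod' (m - 1 - t) l
  generalize (m - 1 - t) / l = r, (m - 1 - t) % l = i at a' e'
  have kl : k * 2 ≤ k * l := Nat.mul_le_mul_left _ hl
  have e1 : (q + 1) * m = q * m + m := by ring
  have e2 : (r + 1) * l = r * l + l := by ring
  by_cases hi : i + 1 < l
  · refine key r (lt_of_mul_lt_mul_right (a := l) (by omega) (by omega)) i hi ?_
    rw [show s + r * l + i = q * m + (m - 1) by omega, sh_up h5 (by omega)]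
    omega
  · refine key (r + 1) (lt_of_mul_lt_mul_right (a := l) (by omega) (by omega)) 0 (by omega) ?_
    rw [show s + (r + 1) * l + 0 = (q + 1) * m + 0 by omega, sh_up h5 (by omega)]
    omega

theorem pw_rank {W : ℕ → ℕ} {s l : ℕ} (ρ : ℕ → ℕ)
    (h : ∀ r < k, ∀ i < l, ∀ j < l, ρ i < ρ j → W (s + r * l + i) < W (s + r * l + j))
    (hρ : ∀ i < l, ∀ j < l, ρ i = ρ j → i = j) : Pw k W s l := by
  have key : ∀ r < k, ∀ i < l, ∀ j < l, W (s + r * l + i) < W (s + r * l + j) ↔ ρ i < ρ j :=
    fun r hr i hi j hj => ⟨fun p => by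
      rcases lt_trichotomy (ρ i) (ρ j) with q | q | q
      · exact q
      · rw [hρ i hi j hj q] at p
        omega
      · have := h r hr j hj i hi q
        omega, h r hr i hi j hj⟩
  intro r hr r' hr' i hi j hj
  rw [key r hr i hi j hj, key r' hr' i hi j hj]

theorem sh_down {q r : ℕ} (hm : 5 ≤ m) (h1 : 1 ≤ r) (hr : r + 1 < m) :
    sh m (q * m + r + 1) < sh m (q * m + r) := by
  have := sh_up (q := q) hm (show r < m by omega)
  have h2 : sh m (q * m + r + 1) ≠ sh m (q * m + r) := fun h => by simpa using sh_inj hm h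
  omega

theorem sh_left (hk : 3 ≤ k) (hm : m + 1 = 2 * k) (W : ℕ → ℕ)
    (hW : ∀ i < k * m + 1, ∀ j < k * m + 1, (W (i + 1) < W (j + 1) ↔ sh m i < sh m j))
    (hne : W 0 ≠ W 1) : ∃ s l, 2 ≤ l ∧ s + k * l ≤ k * m + 1 + 1 ∧ Pw k W s l := by
  have h5 : 5 ≤ m := by omega
  have km : 3 * m ≤ k * m := Nat.mul_le_mul_right _ hk
  rcases hne.lt_or_gt with h | h
  · refine ⟨0, m, by omega, by omega, pw_rank (fun i => if i ≤ 1 then i else m + 1 - i)
      (fun r hr i hi j hj p => ?_) fun i hi j hj p => by split_ifs at p <;> omega⟩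
    have c := mul_cases r m
    have b : (r + 1) * m ≤ k * m := Nat.mul_le_mul_right _ hr
    have e : (r + 1) * m = r * m + m := by ring
    obtain ⟨j, rfl⟩ : ∃ j', j = j' + 1 := ⟨j - 1, by split_ifs at p <;> omega⟩
    have ej := sh_eq r j _ h5 (by omega) rfl
    rw [show 0 + r * m + (j + 1) = r * m + j + 1 by omega]
    rcases i with _ | i
    · rcases r with _ | r
      · have := hW 0 (by omega) (0 * m + j) (by omega)
        have h0 := sh_eq 0 0 0 h5 (by omega) (by omega)
        rw [show 0 + 0 * m + 0 = 0 by omega]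
        by_cases hj0 : j = 0
        · simpa [hj0] using h
        · exact h.trans (this.2 (by omega))
      · have e' : (r + 1) * m = r * m + m := by ring
        have := sh_eq r (m - 1) _ h5 (by omega) rfl
        rw [show 0 + (r + 1) * m + 0 = r * m + (m - 1) + 1 by omega, hW _ (by omega) _ (by omega)]
        omega
    · have := sh_eq r i _ h5 (by omega) rfl
      rw [show 0 + r * m + (i + 1) = r * m + i + 1 by omega, hW _ (by omega) _ (by omega)]
      split_ifs at p <;> omega
  · refine ⟨0, 2, le_rfl, by omega, pw_two (p := False) fun r hr => ?_⟩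
    suffices W (0 + r * 2 + 1) < W (0 + r * 2) by simp only [iff_false, not_false_iff, iff_true]; omega
    rcases r with _ | r
    · exact h
    · rw [show 0 + (r + 1) * 2 = 0 * m + (2 * r + 1) + 1 by omega, hW _ (by omega) _ (by omega)]
      exact sh_down h5 (by omega) (by omega)

theorem sh_right (hk : 3 ≤ k) (hm : m + 1 = 2 * k) (W : ℕ → ℕ)
    (hW : ∀ i < k * m + 1, ∀ j < k * m + 1, (W i < W j ↔ sh m i < sh m j))
    (hne : W (k * m + 1) ≠ W (k * m + 1 - 1)) :
    ∃ s l, 2 ≤ l ∧ s + k * l ≤ k * m + 1 + 1 ∧ Pw k W s l := by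
  have h5 : 5 ≤ m := by omega
  rw [Nat.add_sub_cancel] at hne
  obtain ⟨q, rfl⟩ : ∃ q, k = q + 1 := ⟨k - 1, by omega⟩
  have km : 2 * m ≤ q * m := Nat.mul_le_mul_right _ (by omega)
  have em : (q + 1) * m = q * m + m := by ring
  rcases hne.lt_or_gt with h | h
  · refine ⟨q * m + 1, 2, le_rfl, by omega, pw_two (p := False) fun r hr => ?_⟩
    suffices W (q * m + 1 + r * 2 + 1) < W (q * m + 1 + r * 2) by
      simp only [iff_false, not_false_iff, iff_true]; omega
    by_cases e : r = q
    · rwa [show q * m + 1 + r * 2 = (q + 1) * m by omega]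
    · rw [hW _ (by omega) _ (by omega), show q * m + 1 + r * 2 = q * m + (1 + r * 2) by omega]
      exact sh_down h5 (by omega) (by omega)
  · refine ⟨2, m, by omega, by omega, pw_rank (fun i => if i + 2 < m then m - 3 - i else i)
      (fun r hr i hi j hj p => ?_) fun i hi j hj p => by split_ifs at p <;> omega⟩
    have c := mul_cases r m
    have b : r * m + m ≤ q * m ∨ r * m = q * m := by
      rcases (show r + 1 ≤ q ∨ r = q by omega) with b | b
      · exact Or.inl (by nlinarith)
      · exact Or.inr (by rw [b])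
    have e : (r + 1) * m = r * m + m := by ring
    have val : ∀ i < m, (i + 3 = m ∧ sh m (2 + r * m + i) ≤ r * m + 1) ∨
        (i + 3 < m ∧ sh m (2 + r * m + i) + i + 2 = r * m + m) ∨
        (i + 2 = m ∧ r * m + m ≤ sh m (2 + r * m + i) + 1 ∧ sh m (2 + r * m + i) ≤ r * m + m) ∨
        (i + 1 = m ∧ sh m (2 + r * m + i) + 1 = r * m + m + m) := fun i hi => by
      by_cases h : i + 2 < m
      · have := sh_eq r (i + 2) (2 + r * m + i) h5 h (by omega)
        omega
      · have := sh_eq (r + 1) (i + 2 - m) (2 + r * m + i) h5 (by omega) (by omega)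
        omega
    have vi := val i hi
    have hi' : i + 1 < m := by split_ifs at p <;> omega
    by_cases hj' : 2 + r * m + j = (q + 1) * m + 1
    · rw [hj']
      by_cases h2 : i + 2 = m
      · rwa [show 2 + r * m + i = (q + 1) * m by omega]
      · refine lt_trans ?_ h
        have := val (m - 2) (by omega)
        rw [hW _ (by omega) _ (by omega), show (q + 1) * m = 2 + r * m + (m - 2) by omega]
        omega
    · have := val j hj
      rw [hW _ (by omega) _ (by omega)]
      split_ifs at p <;> omega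

theorem exists_short (hk : 3 ≤ k) (hm : m + 1 = 2 * k) :
    ∃ σ : Equiv.Perm (Fin (k * m + 1)), Bicrucial k σ :=
  AL.bicrucial_of (by nlinarith) (sh m) (sh_inj (by omega)) (sh_free hk hm) (sh_left hk hm)
    (sh_right hk hm)

theorem least (hk : 3 ≤ k) :
    IsLeast {n | ∃ σ : Equiv.Perm (Fin n), Bicrucial k σ} (k * (2 * k - 1) + 1) := by
  refine ⟨exists_short hk (by omega), fun n ⟨σ, h⟩ => ?_⟩
  have := length_ge hk h
  obtain ⟨m, hm⟩ : ∃ m, 2 * k = m + 1 := ⟨2 * k - 1, by omega⟩
  rw [hm, Nat.add_sub_cancel]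
  nlinarith

end Pool.Agent.Lib.MP_8f6629_co.ML
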