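import Pool.Agent.Lib.MP_8f6629_co.Core

namespace Pool.Agent.Lib.MP_8f6629_co

def band (c u q r : ℕ) : ℕ :=
  if r = 0 then (if q < c + 3 ∨ (q ≤ c + 4 + 2 * u ∧ (q + c) % 2 = 0) then 8 * c + 14 else 2)
  else if r = 1 ∧ q = c + 4 + 2 * u then 3
  else if r = 2 * c + 5 ∧ q = c + 2 then 8 * c + 13
  else 4 * (r - 1)

def V (c u i : ℕ) : ℚ := (band c u (i / (2 * c + 6)) (i % (2 * c + 6)) : ℚ) + P (i / (2 * c + 6))

lemma V_at (c u q r : ℕ) (hr : r < 2 * c + 6) :
    V c u ((2 * c + 6) * q + r) = band c u q r + P q := by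
  unfold V
  have h1 : ((2 * c + 6) * q + r) / (2 * c + 6) = q := by
    rw [Nat.mul_add_div (by omega), Nat.div_eq_of_lt hr]; simp
  have h2 : ((2 * c + 6) * q + r) % (2 * c + 6) = r := by
    rw [Nat.mul_add_mod, Nat.mod_eq_of_lt hr]
  rw [h1, h2]

lemma V_lt (c u q r q' r' a b : ℕ) (hr : r < 2 * c + 6) (hr' : r' < 2 * c + 6)
    (ha : a = (2 * c + 6) * q + r) (hb : b = (2 * c + 6) * q' + r') :
    V c u a < V c u b ↔
      band c u q r < band c u q' r' ∨ (band c u q r = band c u q' r' ∧ P q < P q') := by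
  rw [ha, hb, V_at _ _ _ _ hr, V_at _ _ _ _ hr', lex_lt _ _ _ _ (P_bounds _) (P_bounds _)]

lemma V_lt' (c u q r q' r' a b : ℕ) (hr : r < 2 * c + 6) (hr' : r' < 2 * c + 6)
    (ha : a = (2 * c + 6) * q + r) (hb : b = (2 * c + 6) * q' + r')
    (hne : band c u q r ≠ band c u q' r') :
    V c u a < V c u b ↔ band c u q r < band c u q' r' := by
  rw [V_lt c u q r q' r' a b hr hr' ha hb]
  simp [hne]

lemma decomp (c a : ℕ) : ∃ q r, r < 2 * c + 6 ∧ a = (2 * c + 6) * q + r :=
  ⟨a / (2 * c + 6), a % (2 * c + 6), Nat.mod_lt _ (by omega), (Nat.div_add_mod _ _).symm⟩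

lemma band_ne (c u q r q' r' : ℕ) (hr : r < 2 * c + 6) (hr' : r' < 2 * c + 6) (h : r ≠ r') :
    band c u q r ≠ band c u q' r' := by
  unfold band
  split_ifs <;> omega

lemma band_zero (c u q : ℕ) : band c u q 0 =
    if q < c + 3 ∨ (q ≤ c + 4 + 2 * u ∧ (q + c) % 2 = 0) then 8 * c + 14 else 2 := by
  unfold band; rw [if_pos rfl]

lemma band_one (c u q : ℕ) : band c u q 1 = if q = c + 4 + 2 * u then 3 else 0 := by
  unfold band
  rw [if_neg (by omega)]
  by_cases h : q = c + 4 + 2 * u
  · rw [if_pos ⟨rfl, h⟩, if_pos h]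
  · rw [if_neg (by omega), if_neg (by omega), if_neg h]

lemma band_mid (c u q r : ℕ) (h1 : 2 ≤ r) (h2 : r ≤ 2 * c + 4) : band c u q r = 4 * (r - 1) := by
  unfold band
  rw [if_neg (by omega), if_neg (by omega), if_neg (by omega)]

lemma band_top (c u q : ℕ) : band c u q (2 * c + 5) =
    if q = c + 2 then 8 * c + 13 else 8 * c + 16 := by
  unfold band
  rw [if_neg (by omega), if_neg (by omega)]
  by_cases h : q = c + 2
  · rw [if_pos ⟨rfl, h⟩, if_pos h]
  · rw [if_neg (by omega), if_neg h]; omega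

lemma V_inj (c u a b : ℕ) (h : V c u a = V c u b) : a = b := by
  obtain ⟨q, r, hr, ha⟩ := decomp c a
  obtain ⟨q', r', hr', hb⟩ := decomp c b
  have h1 : ¬ V c u a < V c u b := by rw [h]; exact lt_irrefl _
  have h2 : ¬ V c u b < V c u a := by rw [h]; exact lt_irrefl _
  rw [V_lt c u q r q' r' a b hr hr' ha hb] at h1
  rw [V_lt c u q' r' q r b a hr' hr hb ha] at h2
  have hb1 : band c u q r = band c u q' r' := by
    by_contra hne
    rcases Nat.lt_or_gt_of_ne hne with h3 | h3
    · exact h1 (Or.inl h3)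
    · exact h2 (Or.inl h3)
  have hp : P q = P q' := by
    by_contra hne
    rcases lt_or_gt_of_ne hne with h3 | h3
    · exact h1 (Or.inr ⟨hb1, h3⟩)
    · exact h2 (Or.inr ⟨hb1.symm, h3⟩)
  have hq := P_inj _ _ hp
  have hrr : r = r' := by
    by_contra hne
    exact band_ne c u q r q' r' hr hr' hne hb1
  rw [ha, hb, hq, hrr]

/-- up-down word -/
lemma V_up (c u q r a : ℕ) (hr : r < 2 * c + 6) (ha : a = (2 * c + 6) * q + r) :
    V c u a < V c u (a + 1) ↔ (r ≠ 0 ∧ r ≠ 2 * c + 5) := by
  by_cases h : r = 2 * c + 5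
  · rw [V_lt' c u q r (q + 1) 0 a (a + 1) hr (by omega) ha (by rw [ha, h]; ring)
      (band_ne _ _ _ _ _ _ hr (by omega) (by omega))]
    subst h
    rw [band_top, band_zero]
    split_ifs <;> omega
  · rw [V_lt' c u q r q (r + 1) a (a + 1) hr (by omega) ha (by rw [ha]; ring)
      (band_ne _ _ _ _ _ _ hr (by omega) (by omega))]
    by_cases h0 : r = 0
    · subst h0
      rw [zero_add, band_zero, band_one]
      split_ifs <;> omega
    by_cases h1 : r = 1
    · subst h1
      rw [band_one, band_mid c u q (1 + 1) (by omega) (by omega)]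
      split_ifs <;> omega
    by_cases h2 : r = 2 * c + 4
    · subst h2
      rw [band_mid c u q _ (by omega) (by omega), band_top]
      split_ifs <;> omega
    rw [band_mid c u q _ (by omega) (by omega), band_mid c u q _ (by omega) (by omega)]
    omega

lemma V_up' (c u a : ℕ) :
    V c u a < V c u (a + 1) ↔ (a % (2 * c + 6) ≠ 0 ∧ a % (2 * c + 6) ≠ 2 * c + 5) :=
  V_up c u (a / (2 * c + 6)) (a % (2 * c + 6)) a (Nat.mod_lt _ (by omega))
    (Nat.div_add_mod _ _).symm

/-- reach any residue within one period -/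
lemma reach (c s t : ℕ) (ht : t < 2 * c + 6) :
    ∃ e q, e < 2 * c + 6 ∧ s + e = (2 * c + 6) * q + t ∧ (s + e) % 2 = t % 2 := by
  obtain ⟨q, r, hr, hs⟩ := decomp c s
  have hev : ∀ x : ℕ, ((2 * c + 6) * x) % 2 = 0 := by
    intro x
    have : (2 * c + 6) * x = 2 * ((c + 3) * x) := by ring
    omega
  by_cases h : r ≤ t
  · refine ⟨t - r, q, by omega, by omega, ?_⟩
    have := hev q
    omega
  · refine ⟨2 * c + 6 + t - r, q + 1, by omega, ?_, ?_⟩
    · have : (2 * c + 6) * (q + 1) = (2 * c + 6) * q + (2 * c + 6) := by ring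
      omega
    · have := hev q
      omega

lemma step_ap (c x l : ℕ)
    (h0 : ¬ (x % (2 * c + 6) ≠ 0 ∧ x % (2 * c + 6) ≠ 2 * c + 5))
    (h1 : ¬ ((x + l) % (2 * c + 6) ≠ 0 ∧ (x + l) % (2 * c + 6) ≠ 2 * c + 5))
    (h2 : ¬ ((x + l + l) % (2 * c + 6) ≠ 0 ∧ (x + l + l) % (2 * c + 6) ≠ 2 * c + 5)) :
    l % (2 * c + 6) = 0 := by
  have e1 := Nat.add_mod_eq_ite (m := x) (n := l) (k := 2 * c + 6)
  have e2 := Nat.add_mod_eq_ite (m := x + l) (n := l) (k := 2 * c + 6)
  have b0 : x % (2 * c + 6) < 2 * c + 6 := Nat.mod_lt _ (by omega)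
  have b1 : l % (2 * c + 6) < 2 * c + 6 := Nat.mod_lt _ (by omega)
  generalize (x + l + l) % (2 * c + 6) = w2 at *
  generalize (x + l) % (2 * c + 6) = w1 at *
  generalize x % (2 * c + 6) = w0 at *
  generalize l % (2 * c + 6) = w at *
  split_ifs at e1 e2 <;> omega

lemma period_dvd (c u s l : ℕ) (hl : 2 ≤ l) (h : Pw (c + 3) (V c u) s l) :
    l % (2 * c + 6) = 0 := by
  have hup : ∀ r < c + 3, ∀ r' < c + 3, ∀ i, i + 1 < l →
      (((s + r * l + i) % (2 * c + 6) ≠ 0 ∧ (s + r * l + i) % (2 * c + 6) ≠ 2 * c + 5) ↔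
      ((s + r' * l + i) % (2 * c + 6) ≠ 0 ∧ (s + r' * l + i) % (2 * c + 6) ≠ 2 * c + 5)) := by
    intro r hr r' hr' i hi
    have := h r hr r' hr' i (by omega) (i + 1) hi
    rw [← V_up' c u, ← V_up' c u]
    simpa only [add_assoc] using this
  by_cases h2 : l = 2
  · exfalso
    subst h2
    obtain ⟨e, q, he, hq, hp⟩ := reach c s (if s % 2 = 0 then 0 else 2 * c + 5)
      (by split_ifs <;> omega)
    obtain ⟨e', q', he', hq', hp'⟩ := reach c s (if s % 2 = 0 then 2 else 1)
      (by split_ifs <;> omega)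
    have h3 := hup (e / 2) (by omega) (e' / 2) (by omega) 0 (by omega)
    have a1 : s + e / 2 * 2 + 0 = s + e := by split_ifs at hp <;> omega
    have a2 : s + e' / 2 * 2 + 0 = s + e' := by split_ifs at hp' <;> omega
    rw [a1, a2, hq, hq', Nat.mul_add_mod, Nat.mul_add_mod] at h3
    split_ifs at h3
    · rw [Nat.mod_eq_of_lt (by omega : 0 < 2 * c + 6),
        Nat.mod_eq_of_lt (by omega : 2 < 2 * c + 6)] at h3
      omega
    · rw [Nat.mod_eq_of_lt (by omega : 2 * c + 5 < 2 * c + 6),
        Nat.mod_eq_of_lt (by omega : 1 < 2 * c + 6)] at h3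
      omega
  · have hl3 : 3 ≤ l := by omega
    obtain ⟨e, q, he, hq, -⟩ := reach c s (2 * c + 5) (by omega)
    have hbig : 3 * (c + 3) ≤ (c + 3) * l := by nlinarith
    -- find a non-boundary descent
    obtain ⟨r, i, hr, hi, hD⟩ : ∃ r i, r < c + 3 ∧ i + 1 < l ∧
        ¬ ((s + r * l + i) % (2 * c + 6) ≠ 0 ∧ (s + r * l + i) % (2 * c + 6) ≠ 2 * c + 5) := by
      have hd := Nat.div_add_mod e l
      have hm : e % l < l := Nat.mod_lt _ (by omega)
      have hc : l * (e / l) = e / l * l := by ring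
      by_cases hb : e % l + 1 < l
      · refine ⟨e / l, e % l, ?_, hb, ?_⟩
        · apply Nat.div_lt_of_lt_mul
          have : l * (c + 3) = (c + 3) * l := by ring
          omega
        · have : s + e / l * l + e % l = (2 * c + 6) * q + (2 * c + 5) := by omega
          rw [this, Nat.mul_add_mod, Nat.mod_eq_of_lt (by omega)]
          omega
      · have hc2 : (e / l + 1) * l = e / l * l + l := by ring
        refine ⟨e / l + 1, 0, ?_, by omega, ?_⟩
        · have : (e / l + 1) * l < (c + 3) * l := by omega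
          exact lt_of_mul_lt_mul_right this (by omega)
        · have h5 : (2 * c + 6) * (q + 1) = (2 * c + 6) * q + (2 * c + 6) := by ring
          have : s + (e / l + 1) * l + 0 = (2 * c + 6) * (q + 1) + 0 := by omega
          rw [this, Nat.mul_add_mod]
          simp
    have g0 := (hup 0 (by omega) r hr i hi).not.2 hD
    have g1 := (hup 1 (by omega) r hr i hi).not.2 hD
    have g2 := (hup 2 (by omega) r hr i hi).not.2 hD
    apply step_ap c (s + i) l
    · simpa using g0
    · have : s + 1 * l + i = s + i + l := by ring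
      rwa [this] at g1
    · have : s + 2 * l + i = s + i + l + l := by ring
      rwa [this] at g2

theorem V_free (c u s l : ℕ) (hl : 2 ≤ l)
    (hn : s + (c + 3) * l ≤ (2 * c + 6) * (2 * c + 7 + 2 * u) + 1) : ¬ Pw (c + 3) (V c u) s l := by
  intro h
  have hd := period_dvd c u s l hl h
  obtain ⟨m, rfl⟩ : ∃ m, l = (2 * c + 6) * m := Nat.dvd_of_mod_eq_zero hd
  obtain ⟨e2, q2, he2, hq2, -⟩ := reach c s 2 (by omega)
  have hb2 : ∀ q, band c u q 2 = 4 := by
    intro q; rw [band_mid c u q 2 (by omega) (by omega)]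
  by_cases hm : 2 ≤ m
  · apply P_cubefree m hm q2
    apply Pw_mono (k := c + 3) (by omega)
    intro r hr r' hr' i hi j hj
    have hlt : ∀ i < m, e2 + (2 * c + 6) * i < (2 * c + 6) * m := by
      intro i hi
      have : (2 * c + 6) * (i + 1) ≤ (2 * c + 6) * m := Nat.mul_le_mul_left _ hi
      have h2 : (2 * c + 6) * (i + 1) = (2 * c + 6) * i + (2 * c + 6) := by ring
      omega
    have h1 := h r hr r' hr' _ (hlt i hi) _ (hlt j hj)
    have e1 : ∀ r i, s + r * ((2 * c + 6) * m) + (e2 + (2 * c + 6) * i)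
        = (2 * c + 6) * (q2 + r * m + i) + 2 := by
      intro r i
      have : s + r * ((2 * c + 6) * m) + (e2 + (2 * c + 6) * i)
        = (s + e2) + (2 * c + 6) * (r * m + i) := by ring
      rw [this, hq2]; ring
    rw [V_lt c u _ 2 _ 2 _ _ (by omega) (by omega) (e1 r i) (e1 r j),
      V_lt c u _ 2 _ 2 _ _ (by omega) (by omega) (e1 r' i) (e1 r' j)] at h1
    simpa [hb2] using h1
  · have hm1 : m = 1 := by
      rcases m with _ | _ | m
      · simp at hl
      · rfl
      · omega
    subst hm1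
    rw [mul_one] at h hn
    obtain ⟨e0, q0, he0, hq0, -⟩ := reach c s 0 (by omega)
    have pos : ∀ r e q t, s + e = (2 * c + 6) * q + t →
        s + r * (2 * c + 6) + e = (2 * c + 6) * (q + r) + t := by
      intro r e q t h
      have : s + r * (2 * c + 6) + e = (s + e) + (2 * c + 6) * r := by ring
      rw [this, h]; ring
    have hz : ∀ r < c + 3, ∀ r' < c + 3,
        (band c u (q0 + r) 0 < 4 ↔ band c u (q0 + r') 0 < 4) := by
      intro r hr r' hr'
      have h1 := h r hr r' hr' e0 he0 e2 he2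
      rw [V_lt' c u _ 0 _ 2 _ _ (by omega) (by omega) (pos r _ _ _ hq0) (pos r _ _ _ hq2)
          (band_ne _ _ _ _ _ _ (by omega) (by omega) (by omega)),
        V_lt' c u _ 0 _ 2 _ _ (by omega) (by omega) (pos r' _ _ _ hq0) (pos r' _ _ _ hq2)
          (band_ne _ _ _ _ _ _ (by omega) (by omega) (by omega)), hb2, hb2] at h1
      exact h1
    have hq0le : q0 ≤ c + 5 + 2 * u := by
      by_contra hcon
      have : (2 * c + 6) * (c + 6 + 2 * u) ≤ (2 * c + 6) * q0 := Nat.mul_le_mul_left _ (by omega)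
      nlinarith
    have hcases : q0 = 0 ∨ q0 = c + 5 + 2 * u := by
      by_contra hcon
      by_cases h1 : q0 < c + 3
      · have := hz 0 (by omega) (c + 3 - q0) (by omega)
        rw [band_zero, band_zero] at this
        split_ifs at this <;> omega
      · have := hz 0 (by omega) 1 (by omega)
        rw [band_zero, band_zero] at this
        split_ifs at this <;> omega
    rcases hcases with h1 | h1
    · subst h1
      have hs : s = 0 := by omega
      subst hs
      have h2 := h 0 (by omega) (c + 2) (by omega) 0 (by omega) (2 * c + 5) (by omega)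
      rw [V_lt' c u 0 0 0 (2 * c + 5) _ _ (by omega) (by omega) (by ring) (by ring)
          (band_ne _ _ _ _ _ _ (by omega) (by omega) (by omega)),
        V_lt' c u (c + 2) 0 (c + 2) (2 * c + 5) _ _ (by omega) (by omega) (by ring) (by ring)
          (band_ne _ _ _ _ _ _ (by omega) (by omega) (by omega))] at h2
      rw [band_zero, band_zero, band_top, band_top] at h2
      split_ifs at h2 <;> omega
    · subst h1
      have hs : s = (2 * c + 6) * (c + 4 + 2 * u) + 1 := by nlinarith
      have h2 := h 0 (by omega) 1 (by omega) 0 (by omega) (2 * c + 5) (by omega)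
      rw [V_lt' c u (c + 4 + 2 * u) 1 (c + 5 + 2 * u) 0 _ _ (by omega) (by omega)
          (by rw [hs]; ring) (by rw [hs]; ring)
          (band_ne _ _ _ _ _ _ (by omega) (by omega) (by omega)),
        V_lt' c u (c + 5 + 2 * u) 1 (c + 6 + 2 * u) 0 _ _ (by omega) (by omega)
          (by rw [hs]; ring) (by rw [hs]; ring)
          (band_ne _ _ _ _ _ _ (by omega) (by omega) (by omega))] at h2
      rw [band_zero, band_zero, band_one, band_one] at h2
      split_ifs at h2 <;> omega

end Pool.Agent.Lib.MP_8f6629_co
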